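import Pool.Agent.Q176.BR.Bdry

/-!
# The metrics coincide at the boundary points
-/

set_option autoImplicit false

namespace Pool.Agent.Q176.BR

open Set Metric Filter Topology
open scoped ContDiff InnerProductSpace

variable {n : ℕ} {g g' : Fld n}

theorem quartic {A B C D F A' B' C' D' F' δ : ℝ} (hδ : 0 < δ)
    (h : ∀ s : ℝ, |s| ≤ 2 * δ → (A + s * B) ^ 2 * (C + 2 * s * D + s ^ 2 * F) =
      (A' + s * B') ^ 2 * (C' + 2 * s * D' + s ^ 2 * F')) : B ^ 2 * F = B' ^ 2 * F' := by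
  have h0 := h 0 (by simp [hδ.le])
  have h1 := h δ (by rw [abs_of_pos hδ]; linarith)
  have h2 := h (-δ) (by rw [abs_neg, abs_of_pos hδ]; linarith)
  have h3 := h (2 * δ) (by rw [abs_of_pos (by linarith)])
  have h4 := h (-(2 * δ)) (by rw [abs_neg, abs_of_pos (by linarith)])
  have h5 : δ ^ 4 * (B ^ 2 * F) = δ ^ 4 * (B' ^ 2 * F') := by
    linear_combination (1 / 24) * h3 - (1 / 6) * h1 + (1 / 4) * h0 - (1 / 6) * h2 +
      (1 / 24) * h4
  exact mul_left_cancel₀ (pow_pos hδ 4).ne' h5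

theorem quadratic {A B C δ : ℝ} (hδ : 0 < δ)
    (h : ∀ s : ℝ, |s| ≤ δ → A + s * B + s ^ 2 * C = 0) : C = 0 := by
  have h0 := h 0 (by simp [hδ.le])
  have h1 := h δ (by rw [abs_of_pos hδ])
  have h2 := h (-δ) (by rw [abs_neg, abs_of_pos hδ])
  have h5 : δ ^ 2 * C = 0 := by
    linear_combination (1 / 2) * h1 - h0 + (1 / 2) * h2
  rcases mul_eq_zero.1 h5 with h | h
  · exact absurd h (pow_pos hδ 2).ne'
  · exact h

/-- The segments through a point of an open set. -/
theorem exists_seg {S : Set (E n)} {b : E n} (hS : S ∈ 𝓝 b) (z : E n) :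
    ∃ δ > 0, ∀ s : ℝ, |s| ≤ δ → b + s • z ∈ S := by
  have h1 : ContinuousAt (fun s : ℝ => b + s • z) 0 := by fun_prop
  have h2 : ∀ᶠ s : ℝ in 𝓝 0, b + s • z ∈ S := by
    have h3 : S ∈ 𝓝 ((fun s : ℝ => b + s • z) 0) := by simpa using hS
    exact h1 h3
  obtain ⟨δ, hδ, h4⟩ := Metric.eventually_nhds_iff.1 h2
  refine ⟨δ / 2, by positivity, fun s hs => h4 ?_⟩
  rw [Real.dist_eq, sub_zero]
  linarith

/-- Two quadratic forms which coincide on an open set coincide. -/
theorem forms_eq_of_open {a b : E n →L[ℝ] E n →L[ℝ] ℝ} (ha : ∀ v w, a v w = a w v)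
    (hb : ∀ v w, b v w = b w v) {S : Set (E n)} {v0 : E n} (hS : S ∈ 𝓝 v0)
    (h : ∀ v ∈ S, a v v = b v v) : ∀ v w, a v w = b v w := by
  have h1 : ∀ z, a z z = b z z := by
    intro z
    obtain ⟨δ, hδ, h2⟩ := exists_seg hS z
    have h3 := quadratic (A := a v0 v0 - b v0 v0) (B := 2 * (a v0 z - b v0 z))
      (C := a z z - b z z) hδ (fun s hs => by
        have h4 := h _ (h2 s hs)
        simp only [map_add, map_smul, add_apply, smul_apply, smul_eq_mul] at h4
        rw [ha z v0, hb z v0] at h4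
        linear_combination h4)
    linarith
  intro v w
  have h2 := h1 (v + w)
  simp only [map_add, add_apply] at h2
  rw [ha w v, hb w v, h1 v, h1 w] at h2
  linarith

/-- The linear algebra at a boundary point. -/
theorem forms_eq (hn : 2 ≤ n) {p : E n} (hp : ‖p‖ = 1) {a b : E n →L[ℝ] E n →L[ℝ] ℝ}
    (ha : ∀ v w, a v w = a w v) (ha' : ∀ v, v ≠ 0 → 0 < a v v)
    (hb : ∀ v w, b v w = b w v) (hb' : ∀ v, v ≠ 0 → 0 < b v v)
    (h : ∀ z w, ⟪p, w⟫_ℝ = 0 → a z w ^ 2 * b z z = b z w ^ 2 * a z z) :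
    ∀ v w, a v w = b v w := by
  have hpne := bd_ne hp
  -- the normal vector
  obtain ⟨ν, hν⟩ : ∃ ν : E n, ∀ z, a ν z = ⟪p, z⟫_ℝ := by
    set T : E n →ₗ[ℝ] E n := ((InnerProductSpace.toDual ℝ (E n)).symm.toLinearEquiv :
      (E n →L[ℝ] ℝ) ≃ₗ[ℝ] E n).toLinearMap.comp (a : E n →ₗ[ℝ] E n →L[ℝ] ℝ) with hT
    have hTa : ∀ v z, ⟪T v, z⟫_ℝ = a v z := by
      intro v z
      have h1 : T v = (InnerProductSpace.toDual ℝ (E n)).symm (a v) := rfl
      rw [h1, InnerProductSpace.toDual_symm_apply]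
    have hinj : Function.Injective T := by
      rw [← LinearMap.ker_eq_bot, LinearMap.ker_eq_bot']
      intro v hv
      by_contra hne
      have h1 := hTa v v
      rw [hv, inner_zero_left] at h1
      exact (ha' v hne).ne h1
    obtain ⟨ν, hν⟩ := LinearMap.injective_iff_surjective.1 hinj p
    exact ⟨ν, fun z => by rw [← hTa, hν]⟩
  have hνne : ν ≠ 0 := by
    rintro rfl
    have h1 := hν p
    simp only [map_zero, zero_apply, real_inner_self_eq_norm_sq, hp] at h1
    norm_num at h1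
  have haν := ha' ν hνne
  -- a tangent vector
  obtain ⟨w0, hw0, hw0p⟩ : ∃ w : E n, w ≠ 0 ∧ ⟪p, w⟫_ℝ = 0 := by
    have h1 : (ℝ ∙ p)ᗮ ≠ ⊥ := by
      intro h2
      have h3 := Submodule.finrank_add_finrank_orthogonal (ℝ ∙ p)
      rw [h2, finrank_bot, add_zero, finrank_span_singleton hpne, finrank_euclideanSpace,
        Fintype.card_fin] at h3
      omega
    obtain ⟨w, hw, hw'⟩ := Submodule.exists_mem_ne_zero_of_ne_bot h1
    exact ⟨w, hw', Submodule.mem_orthogonal_singleton_iff_inner_right.1 hw⟩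
  have htan : ∀ w, ⟪p, w⟫_ℝ = 0 → a w w = b w w := by
    intro w hw
    rcases eq_or_ne w 0 with rfl | hne
    · simp
    have h1 := h w w hw
    have h2 : a w w * b w w * (a w w - b w w) = 0 := by linear_combination h1
    rcases mul_eq_zero.1 h2 with h3 | h3
    · exact absurd h3 (mul_pos (ha' w hne) (hb' w hne)).ne'
    · linarith
  have hνw : ∀ w, ⟪p, w⟫_ℝ = 0 → b ν w = 0 := by
    intro w hw
    have h1 := h ν w hw
    rw [hν w, hw] at h1
    have h2 : b ν w ^ 2 * a ν ν = 0 := by linarith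
    rcases mul_eq_zero.1 h2 with h3 | h3
    · exact pow_eq_zero_iff (two_ne_zero) |>.1 h3
    · exact absurd h3 haν.ne'
  have hνν : a ν ν = b ν ν := by
    have h1 := h (ν + w0) w0 hw0p
    simp only [map_add, add_apply] at h1
    rw [ha w0 ν, hb w0 ν, hν w0, hw0p, hνw w0 hw0p, htan w0 hw0p] at h1
    have h2 : b w0 w0 ^ 2 * (b ν ν - a ν ν) = 0 := by linear_combination h1
    rcases mul_eq_zero.1 h2 with h3 | h3
    · exact absurd h3 (pow_pos (hb' w0 hw0) 2).ne'
    · linarith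
  have hall : ∀ z, a z z = b z z := by
    intro z
    set c := ⟪p, z⟫_ℝ / a ν ν with hc
    have h1 : ⟪p, z - c • ν⟫_ℝ = 0 := by
      rw [inner_sub_right, inner_smul_right, ← hν ν, hc]
      field_simp
      ring
    have h2 : z = c • ν + (z - c • ν) := by abel
    generalize z - c • ν = w at h1 h2
    rw [h2]
    simp only [map_add, map_smul, add_apply, smul_apply, smul_eq_mul]
    rw [ha w ν, hb w ν, hν w, h1, hνw w h1, htan w h1, hνν]
  intro v w
  have h2 := hall (v + w)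
  simp only [map_add, add_apply] at h2
  rw [ha w v, hb w v, hall v, hall w] at h2
  linarith

/-- The metrics coincide at the boundary points in question. -/
theorem eq_at_bd (hn : 2 ≤ n) (hg : IsSimple g) (hg' : IsSimple g') {p q : E n}
    (hp : p ∈ bdM n) (hq : q ∈ bdM n) (hqp : q ≠ p) {S T : Set (E n)} (hS : S ∈ 𝓝 p)
    (hT : T ∈ 𝓝 q) (hd : ∀ r ∈ T, r ∈ bdM n → ∀ y ∈ S, y ∈ bdM n → rdist g r y = rdist g' r y)
    (hproj : ∀ r ∈ T, r ∈ bdM n → r ≠ p → ∃ l : ℝ, 0 < l ∧ tv g' r p = l • tv g r p) :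
    ∀ v w, g p v w = g' p v w := by
  have hp1 : ‖p‖ = 1 := mem_sphere_zero_iff_norm.1 hp
  have hpM := bd_sub hp
  refine forms_eq hn hp1 (hg.symm p) (hg.pos p) (hg'.symm p) (hg'.pos p) ?_
  intro z w hw
  -- the identity on the cone
  have hcone : ∀ v ∈ cone g p T, g p v w ^ 2 * g' p v v = g' p v w ^ 2 * g p v v := by
    rintro _ ⟨l, hl, r, hrT, hr, hrp, rfl⟩
    have hrM := bd_sub hr
    have h1 := first_var_bd hg hg' hrM hp hS (hd r hrT hr) hw
    obtain ⟨m, hm, h2⟩ := hproj r hrT hr hrp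
    have h3 := hd r hrT hr p (mem_of_mem_nhds hS) hp
    rw [hg.rdist_eq hrM hpM, hg'.rdist_eq hrM hpM,
      Real.sqrt_inj (hg.toIsMetric.nonneg _ _) (hg'.toIsMetric.nonneg _ _),
      ← hg.norm_tv hrM hpM, ← hg'.norm_tv hrM hpM] at h3
    rw [h2] at h1 h3
    simp only [map_smul, smul_apply, smul_eq_mul] at h1 h3
    rw [hg.lg_symm hrM hpM]
    simp only [map_smul, map_neg, smul_apply, neg_apply, smul_eq_mul]
    rw [h1, h3]
    ring
  obtain ⟨δ, hδ, h1⟩ := exists_seg (cone_mem_nhds hg hpM hq hqp hT) z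
  refine quartic (A := g p (lg g p q) w) (B := g p z w)
    (C := g' p (lg g p q) (lg g p q)) (D := g' p (lg g p q) z) (F := g' p z z)
    (A' := g' p (lg g p q) w) (B' := g' p z w) (C' := g p (lg g p q) (lg g p q))
    (D' := g p (lg g p q) z) (F' := g p z z) (δ := δ / 2) (by positivity) (fun s hs => ?_)
  have h2 := hcone _ (h1 s (by linarith))
  simp only [map_add, map_smul, add_apply, smul_apply, smul_eq_mul] at h2
  rw [hg.symm p z (lg g p q), hg'.symm p z (lg g p q)] at h2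
  linear_combination h2

end Pool.Agent.Q176.BR
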