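import Pool.Agent.Q176.BR.Dist

/-!
# Directions towards an open part of the boundary, and the first variation at the boundary
-/

set_option autoImplicit false

namespace Pool.Agent.Q176.BR

open Set Metric Filter Topology
open scoped ContDiff InnerProductSpace

variable {n : ℕ} {g g' : Fld n}

/-- The radial projection onto the sphere. -/
noncomputable def rad (y : E n) : E n := ‖y‖⁻¹ • y

theorem rad_mem {y : E n} (hy : y ≠ 0) : rad y ∈ bdM n := by
  unfold rad
  rw [mem_sphere_zero_iff_norm, norm_smul, norm_inv, norm_norm,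
    inv_mul_cancel₀ (norm_ne_zero_iff.2 hy)]

theorem bd_sub : bdM n ⊆ M n := sphere_subset_closedBall

theorem rad_eq {y : E n} (hy : ‖y‖ = 1) : rad y = y := by
  unfold rad
  rw [hy, inv_one, one_smul]

theorem bd_ne {p : E n} (hp : ‖p‖ = 1) : p ≠ 0 := by
  rintro rfl
  simp at hp

theorem norm_curve {p : E n} (hp : ‖p‖ = 1) (ξ : E n) :
    HasDerivAt (fun s : ℝ => ‖p + s • ξ‖) ⟪p, ξ⟫_ℝ 0 := by
  have h4 : HasDerivAt (fun s : ℝ => p + s • ξ) ξ 0 := by
    simpa using ((hasDerivAt_id (0 : ℝ)).smul_const ξ).const_add p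
  have h5 := h4.norm_sq
  have h6 := h5.sqrt (by simp [hp])
  simp only [zero_smul, add_zero, hp, one_pow, Real.sqrt_one, mul_one] at h6
  have h7 : (fun s : ℝ => √(‖p + s • ξ‖ ^ 2)) = fun s : ℝ => ‖p + s • ξ‖ := by
    funext s
    exact Real.sqrt_sq (norm_nonneg _)
  rw [h7] at h6
  refine h6.congr_deriv ?_
  ring

theorem rad_curve {p : E n} (hp : ‖p‖ = 1) (ξ : E n) :
    HasDerivAt (fun s : ℝ => rad (p + s • ξ)) (ξ - ⟪p, ξ⟫_ℝ • p) 0 := by
  have h4 : HasDerivAt (fun s : ℝ => p + s • ξ) ξ 0 := by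
    simpa using ((hasDerivAt_id (0 : ℝ)).smul_const ξ).const_add p
  have h5 := (norm_curve hp ξ).inv (by simp [hp])
  have h6 : HasDerivAt (fun s : ℝ => rad (p + s • ξ)) _ 0 := h5.smul h4
  refine h6.congr_deriv ?_
  simp only [Pi.inv_apply, zero_smul, add_zero, hp, inv_one, one_smul, one_pow, div_one]
  rw [neg_smul, sub_eq_add_neg]

theorem contDiffAt_rad {p : E n} (hp : p ≠ 0) : ContDiffAt ℝ ∞ (rad : E n → E n) p := by
  unfold rad
  exact ((contDiffAt_norm ℝ hp).inv (norm_ne_zero_iff.2 hp)).smul contDiffAt_id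

/-- The map in polar coordinates. -/
noncomputable def pol (g : Fld n) (x y : E n) : E n := ‖y‖ • lg g x (rad y)

theorem contDiffAt_pol (hg : IsSimple g) {x p : E n} (hx : x ∈ M n) (hp : p ≠ 0) :
    ContDiffAt ℝ ∞ (pol g x) p := by
  have h1 : ContDiffAt ℝ ∞ (fun y => lg g x (rad y)) p := by
    have h2 : ContDiffOn ℝ ∞ (fun y => lg g x (rad y)) {0}ᶜ := by
      refine (hg.contDiffOn_lg hx).comp (fun y hy => ?_) (fun y hy => bd_sub (rad_mem hy))
      exact (contDiffAt_rad hy).contDiffWithinAt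
    exact h2.contDiffAt (isOpen_compl_singleton.mem_nhds hp)
  exact (contDiffAt_norm ℝ hp).smul h1

theorem pol_curve (hg : IsSimple g) {x p : E n} (hx : x ∈ M n) (hp : ‖p‖ = 1) (ξ : E n) :
    HasDerivAt (fun s : ℝ => pol g x (p + s • ξ))
      (⟪p, ξ⟫_ℝ • lg g x p + dlg g x p (ξ - ⟪p, ξ⟫_ℝ • p)) 0 := by
  have hpM : p ∈ M n := bd_sub (mem_sphere_zero_iff_norm.2 hp)
  have hne : ∀ᶠ s : ℝ in 𝓝 0, p + s • ξ ≠ 0 := by
    have h1 : ContinuousAt (fun s : ℝ => p + s • ξ) 0 := by fun_prop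
    refine h1.eventually_ne ?_
    simpa using bd_ne hp
  have h2 : HasDerivAt (fun s : ℝ => lg g x (rad (p + s • ξ)))
      (dlg g x p (ξ - ⟪p, ξ⟫_ℝ • p)) 0 := by
    have h3 : HasFDerivWithinAt (lg g x) (dlg g x p) (M n)
        ((fun s : ℝ => rad (p + s • ξ)) 0) := by
      simp only [zero_smul, add_zero, rad_eq hp]
      exact hg.hasFDeriv hx hpM
    have h4 := h3.comp_hasDerivWithinAt (f := fun s : ℝ => rad (p + s • ξ)) (0 : ℝ)
      (rad_curve hp ξ).hasDerivWithinAt (s := {s : ℝ | p + s • ξ ≠ 0})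
      (fun s hs => bd_sub (rad_mem hs))
    exact h4.hasDerivAt hne
  have h5 := (norm_curve hp ξ).smul h2
  simp only [zero_smul, add_zero, hp, rad_eq hp, one_smul] at h5
  refine h5.congr_deriv ?_
  rw [add_comm]

/-- The cone of the directions from `x` towards the boundary points in `S`. -/
def cone (g : Fld n) (x : E n) (S : Set (E n)) : Set (E n) :=
  {z | ∃ l : ℝ, 0 < l ∧ ∃ q ∈ S, q ∈ bdM n ∧ q ≠ x ∧ z = l • lg g x q}

theorem cone_mem_nhds (hg : IsSimple g) {x q : E n} (hx : x ∈ M n) (hq : q ∈ bdM n)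
    (hqx : q ≠ x) {S : Set (E n)} (hS : S ∈ 𝓝 q) : cone g x S ∈ 𝓝 (lg g x q) := by
  have hq1 : ‖q‖ = 1 := mem_sphere_zero_iff_norm.1 hq
  have hqM : q ∈ M n := bd_sub hq
  have hq0 := bd_ne hq1
  have h1 : ContDiffAt ℝ ∞ (pol g x) q := contDiffAt_pol hg hx hq0
  have h2 : HasStrictFDerivAt (pol g x) (fderiv ℝ (pol g x) q) q := h1.hasStrictFDerivAt (by simp)
  have h3 : ∀ ξ, fderiv ℝ (pol g x) q ξ =
      ⟪q, ξ⟫_ℝ • lg g x q + dlg g x q (ξ - ⟪q, ξ⟫_ℝ • q) := by
    intro ξ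
    have h4 : HasDerivAt (fun s : ℝ => q + s • ξ) ξ 0 := by
      simpa using ((hasDerivAt_id (0 : ℝ)).smul_const ξ).const_add q
    have h5 : HasFDerivAt (pol g x) (fderiv ℝ (pol g x) q) ((fun s : ℝ => q + s • ξ) 0) := by
      simp only [zero_smul, add_zero]
      exact h2.hasFDerivAt
    have h6 := HasFDerivAt.comp_hasDerivAt (f := fun s : ℝ => q + s • ξ) (0 : ℝ) h5 h4
    exact h6.unique (pol_curve hg hx hq1 ξ)
  -- transversality
  have htr : 0 < ⟪q, tv g x q⟫_ℝ := by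
    obtain ⟨γ, u, hγ, e0, e1, eu0, eu1⟩ := hg.exists_geod hx hqM
    have h4 := hγ.transversal hg (by rw [eu0]; exact hg.lg_ne_zero hx hqM hqx.symm)
      (by rw [e1]; exact hq1)
    rwa [e1, eu1] at h4
  have hinj : Function.Injective (fderiv ℝ (pol g x) q : E n →ₗ[ℝ] E n) := by
    rw [← LinearMap.ker_eq_bot, LinearMap.ker_eq_bot']
    intro ξ hξ
    change fderiv ℝ (pol g x) q ξ = 0 at hξ
    rw [h3] at hξ
    have h4 : lg g x q = dlg g x q (tv g x q) := (hg.dlg_ilg hx hqM _).symm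
    have h5 : dlg g x q (⟪q, ξ⟫_ℝ • tv g x q + (ξ - ⟪q, ξ⟫_ℝ • q)) = 0 := by
      rw [map_add, map_smul, ← h4]
      exact hξ
    have h6 : ⟪q, ξ⟫_ℝ • tv g x q + (ξ - ⟪q, ξ⟫_ℝ • q) = 0 := by
      rw [← hg.ilg_dlg hx hqM (⟪q, ξ⟫_ℝ • tv g x q + (ξ - ⟪q, ξ⟫_ℝ • q)), h5, map_zero]
    have h7 := congrArg (fun z => ⟪q, z⟫_ℝ) h6
    simp only [inner_add_right, inner_sub_right, inner_smul_right, inner_zero_right,
      real_inner_self_eq_norm_sq, hq1] at h7
    have h8 : ⟪q, ξ⟫_ℝ = 0 := by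
      have h9 : ⟪q, ξ⟫_ℝ * ⟪q, tv g x q⟫_ℝ = 0 := by linarith
      rcases mul_eq_zero.1 h9 with h | h
      · exact h
      · exact absurd h htr.ne'
    rw [h8] at h6
    simpa using h6
  have hsurj : (fderiv ℝ (pol g x) q).range = ⊤ := by
    have h4 := LinearMap.range_eq_top.2 (LinearMap.injective_iff_surjective.1 hinj)
    exact h4
  have h4 := h2.map_nhds_eq_of_surj hsurj
  have h5 : pol g x q = lg g x q := by
    unfold pol
    rw [rad_eq hq1, hq1, one_smul]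
  rw [← h5, ← h4]
  have h6 : {y : E n | y ≠ 0 ∧ rad y ∈ S ∧ rad y ≠ x} ∈ 𝓝 q := by
    have c1 : ContinuousAt (rad : E n → E n) q := (contDiffAt_rad hq0).continuousAt
    have c2 : ∀ᶠ y in 𝓝 q, rad y ∈ S := by
      have h7 : S ∈ 𝓝 (rad q) := by rwa [rad_eq hq1]
      exact c1 h7
    have c3 : ∀ᶠ y in 𝓝 q, rad y ≠ x := c1.eventually_ne (by rwa [rad_eq hq1])
    filter_upwards [isOpen_ne.mem_nhds hq0, c2, c3] with y hy1 hy2 hy3 using ⟨hy1, hy2, hy3⟩
  refine mem_of_superset (image_mem_map h6) ?_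
  rintro _ ⟨y, ⟨hy1, hy2, hy3⟩, rfl⟩
  exact ⟨‖y‖, norm_pos_iff.2 hy1, rad y, hy2, rad_mem hy1, hy3, rfl⟩

/-- The first variation of the distance at the boundary. -/
theorem first_var_bd (hg : IsSimple g) (hg' : IsSimple g') {q p : E n} (hq : q ∈ M n)
    (hp : p ∈ bdM n) {S : Set (E n)} (hS : S ∈ 𝓝 p)
    (hd : ∀ y ∈ S, y ∈ bdM n → rdist g q y = rdist g' q y) {w : E n} (hw : ⟪p, w⟫_ℝ = 0) :
    g p (tv g q p) w = g' p (tv g' q p) w := by
  have hp1 : ‖p‖ = 1 := mem_sphere_zero_iff_norm.1 hp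
  have hpM : p ∈ M n := bd_sub hp
  have hne : ∀ s : ℝ, p + s • w ≠ 0 := by
    intro s h
    have h1 := congrArg (fun z => ⟪p, z⟫_ℝ) h
    simp only [inner_add_right, inner_smul_right, hw, real_inner_self_eq_norm_sq, hp1,
      inner_zero_right] at h1
    norm_num at h1
  have key : ∀ G : Fld n, IsSimple G →
      HasDerivAt (fun s : ℝ => G q (lg G q (rad (p + s • w))) (lg G q (rad (p + s • w))))
        (2 * G p (tv G q p) w) 0 := by
    intro G hG
    have h2 : HasDerivAt (fun s : ℝ => lg G q (rad (p + s • w))) (dlg G q p w) 0 := by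
      have h3 : HasFDerivWithinAt (lg G q) (dlg G q p) (M n)
          ((fun s : ℝ => rad (p + s • w)) 0) := by
        simp only [zero_smul, add_zero, rad_eq hp1]
        exact hG.hasFDeriv hq hpM
      have h4 := h3.comp_hasDerivWithinAt (f := fun s : ℝ => rad (p + s • w)) (0 : ℝ)
        (rad_curve hp1 w).hasDerivWithinAt (s := univ) (fun s _ => bd_sub (rad_mem (hne s)))
      rw [hw, zero_smul, sub_zero, hasDerivWithinAt_univ] at h4
      exact h4
    have h5 := hasDerivAt_form hG.toIsMetric (hasDerivAt_const (0 : ℝ) q) h2 h2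
    refine h5.congr_deriv ?_
    simp only [zero_smul, add_zero, map_zero, zero_apply, zero_add, rad_eq hp1]
    rw [hG.symm q (dlg G q p w), hG.gauss hq hpM]
    ring
  have h1 := key g hg
  have h2 := key g' hg'
  have h3 : (fun s : ℝ => g q (lg g q (rad (p + s • w))) (lg g q (rad (p + s • w)))) =ᶠ[𝓝 0]
      fun s : ℝ => g' q (lg g' q (rad (p + s • w))) (lg g' q (rad (p + s • w))) := by
    have c1 : ContinuousAt (fun s : ℝ => rad (p + s • w)) 0 := (rad_curve hp1 w).continuousAt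
    have c2 : ∀ᶠ s : ℝ in 𝓝 0, rad (p + s • w) ∈ S := by
      have h7 : S ∈ 𝓝 ((fun s : ℝ => rad (p + s • w)) 0) := by
        simp only [zero_smul, add_zero, rad_eq hp1]
        exact hS
      exact c1 h7
    filter_upwards [c2] with s hs
    have hb := rad_mem (hne s)
    have h4 := hd _ hs hb
    rw [hg.rdist_eq hq (bd_sub hb), hg'.rdist_eq hq (bd_sub hb)] at h4
    exact (Real.sqrt_inj (hg.toIsMetric.nonneg _ _) (hg'.toIsMetric.nonneg _ _)).1 h4
  have h4 := h1.unique (h2.congr_of_eventuallyEq h3)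
  linarith

end Pool.Agent.Q176.BR
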