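import Pool.Agent.Q176.BR.Main

/-!
# The Euclidean metric is simple
-/

set_option autoImplicit false

namespace Pool.Agent.Q176.BR

open Set Metric Filter Topology
open scoped ContDiff InnerProductSpace

variable {n : ℕ}

/-- The Euclidean metric. -/
noncomputable def eucl (n : ℕ) : Fld n := fun _ => innerSL ℝ

theorem eucl_apply (x v w : E n) : eucl n x v w = ⟪v, w⟫_ℝ := rfl

theorem eucl_acc {x v c : E n} : IsAcc (eucl n) x v c ↔ c = 0 := by
  have h1 : fderiv ℝ (eucl n) x = 0 := by
    have h2 : eucl n = fun _ => innerSL ℝ := rfl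
    rw [h2]
    exact fderiv_const_apply _
  unfold IsAcc
  rw [h1]
  constructor
  · intro h
    have h2 := h c
    rw [eucl_apply] at h2
    simpa using h2
  · rintro rfl w
    rw [eucl_apply]
    simp

theorem const_of_deriv' {f : ℝ → E n}
    (h : ∀ t ∈ Icc (0 : ℝ) 1, HasDerivWithinAt f 0 (Icc 0 1) t) :
    ∀ t ∈ Icc (0 : ℝ) 1, f t = f 0 := by
  refine constant_of_has_deriv_right_zero (fun t ht => (h t ht).continuousWithinAt) ?_
  intro t ht
  exact (h t ⟨ht.1, ht.2.le⟩).mono_of_mem_nhdsWithin (Icc_mem_nhdsGE_of_mem ht)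

theorem eucl_exp {x v y : E n} : IsExp (eucl n) x v y ↔ x ∈ M n ∧ y ∈ M n ∧ y = x + v := by
  constructor
  · rintro ⟨γ, u, h, rfl, rfl, rfl⟩
    have m0 : (0 : ℝ) ∈ Icc (0 : ℝ) 1 := ⟨le_rfl, zero_le_one⟩
    have m1 : (1 : ℝ) ∈ Icc (0 : ℝ) 1 := ⟨zero_le_one, le_rfl⟩
    refine ⟨h.mem 0 m0, h.mem 1 m1, ?_⟩
    have h1 := const_of_deriv' (f := u) (fun t ht => by
      obtain ⟨c, hc, hacc⟩ := h.acc t ht
      rwa [eucl_acc.1 hacc] at hc)
    have h2 := const_of_deriv' (f := fun t => γ t - t • u 0) (fun t ht => by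
      have h3 := (h.vel t ht).sub ((hasDerivAt_id t).smul_const (u 0)).hasDerivWithinAt
      rw [h1 t ht, one_smul, sub_self] at h3
      exact h3) 1 m1
    simp only [one_smul, zero_smul, sub_zero] at h2
    rw [← h2]
    abel
  · rintro ⟨hx, hy, rfl⟩
    refine ⟨fun t => x + t • v, fun _ => v, ⟨?_, ?_, ?_⟩, by simp, rfl, by simp⟩
    · intro t ht
      have h1 : x + t • v = (1 - t) • x + t • (x + v) := by module
      rw [h1]
      exact convex_closedBall (0 : E n) 1 hx hy (sub_nonneg.2 ht.2) ht.1 (by ring)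
    · intro t _
      simpa using (((hasDerivAt_id t).smul_const v).const_add x).hasDerivWithinAt
    · intro t _
      exact ⟨0, hasDerivWithinAt_const t _ v, eucl_acc.2 rfl⟩

/-- The Euclidean metric is simple. -/
theorem eucl_simple : IsSimple (eucl n) where
  smooth := contDiff_const
  symm x v w := real_inner_comm w v
  pos x v hv := real_inner_self_pos.2 hv
  convex x v c _ hv _ hacc := by
    rw [eucl_acc.1 hacc, inner_zero_right, add_zero]
    exact pow_pos (norm_pos_iff.2 hv) 2
  exp x hx := by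
    refine ⟨fun v => x + v, fun y => y - x, ?_, ⟨?_, ?_, ?_⟩, ⟨?_, ?_⟩, ?_, ?_⟩
    · rintro v ⟨y', hy'⟩ y
      rw [eucl_exp] at hy' ⊢
      constructor
      · exact fun h => h.2.2
      · rintro rfl
        refine ⟨hx, ?_, rfl⟩
        change x + v ∈ M n
        rw [← hy'.2.2]
        exact hy'.2.1
    · rintro v ⟨y, hy⟩
      rw [eucl_exp] at hy
      change x + v ∈ M n
      rw [← hy.2.2]
      exact hy.2.1
    · intro a _ b _ hab
      exact add_left_cancel hab
    · intro y hy
      exact ⟨y - x, ⟨y, eucl_exp.2 ⟨hx, hy, (add_sub_cancel x y).symm⟩⟩, add_sub_cancel x y⟩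
    · intro v _
      exact add_sub_cancel_left x v
    · intro y _
      exact add_sub_cancel x y
    · exact (contDiff_const.add contDiff_id).contDiffOn
    · exact (contDiff_id.sub contDiff_const).contDiffOn

end Pool.Agent.Q176.BR
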