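import Pool.Agent.Q176.BR.Light
import Pool.Agent.Q176.BR.Eucl

/-!
# Comparison of the two versions of the definitions
-/

set_option autoImplicit false

namespace Pool.Agent.Q176.BR

open Set Metric Filter Topology
open scoped ContDiff InnerProductSpace BigOperators

variable {n : ℕ} {g g' : E n → E n → E n → ℝ}

/-- The field of continuous bilinear forms. -/
noncomputable def clm (g : E n → E n → E n → ℝ) : Fld n := fun x =>
  ∑ i, ∑ j, g x (bs i) (bs j) •
    ((EuclideanSpace.proj i : E n →L[ℝ] ℝ).smulRight (EuclideanSpace.proj j : E n →L[ℝ] ℝ))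

theorem SM.sum_left (hg : SM.IsMetric g) (x w : E n) (v : Fin n → E n) (a : Fin n → ℝ)
    (s : Finset (Fin n)) : g x (∑ i ∈ s, a i • v i) w = ∑ i ∈ s, a i * g x (v i) w := by
  induction s using Finset.induction_on with
  | empty =>
    rw [Finset.sum_empty, Finset.sum_empty]
    have h := hg.smul x 0 0 w
    rwa [zero_smul, zero_mul] at h
  | insert i s hi ih => rw [Finset.sum_insert hi, Finset.sum_insert hi, hg.add, hg.smul, ih]

theorem clm_apply (hg : SM.IsMetric g) (x v w : E n) : clm g x v w = g x v w := by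
  have h1 : g x v w = ∑ i, ∑ j, g x (bs i) (bs j) * (v i * w j) := by
    conv_lhs => rw [← sum_bs v, SM.sum_left hg]
    refine Finset.sum_congr rfl (fun i _ => ?_)
    rw [hg.symm]
    conv_lhs => rw [← sum_bs w, SM.sum_left hg]
    rw [Finset.mul_sum]
    refine Finset.sum_congr rfl (fun j _ => ?_)
    rw [hg.symm x (bs j) (bs i)]
    ring
  rw [h1]
  unfold clm
  simp only [sum_apply, smul_apply, ContinuousLinearMap.smulRight_apply, smul_eq_mul]
  rfl

theorem clm_smooth (hg : SM.IsMetric g) : ContDiff ℝ ∞ (clm g) := by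
  rw [contDiff_clm_apply_iff]
  intro v
  rw [contDiff_clm_apply_iff]
  intro w
  have e : (fun y => clm g y v w) = fun y => g y v w := by
    funext y
    exact clm_apply hg y v w
  rw [e]
  exact hg.smooth v w

theorem clm_metric (hg : SM.IsMetric g) : IsMetric (clm g) where
  smooth := clm_smooth hg
  symm x v w := by rw [clm_apply hg, clm_apply hg, hg.symm]
  pos x v hv := by
    rw [clm_apply hg]
    exact hg.pos x v hv

theorem clm_fderiv (hg : SM.IsMetric g) (x z v w : E n) :
    fderiv ℝ (clm g) x z v w = SM.dg g x z v w := by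
  have h1 : HasFDerivAt (fun y => clm g y v w) (((fderiv ℝ (clm g) x).flip v).flip w) x := by
    have h := (((clm_metric hg).hasFDerivAt x).clm_apply (hasFDerivAt_const v x)).clm_apply
      (hasFDerivAt_const w x)
    refine h.congr_fderiv ?_
    ext z
    simp
  have e : (fun y => clm g y v w) = fun y => g y v w := by
    funext y
    exact clm_apply hg y v w
  rw [e] at h1
  unfold SM.dg
  rw [h1.fderiv]
  simp

theorem clm_acc (hg : SM.IsMetric g) {x v c : E n} :
    IsAcc (clm g) x v c ↔ SM.IsAcc g x v c := by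
  unfold IsAcc SM.IsAcc
  refine forall_congr' (fun w => ?_)
  rw [clm_apply hg, clm_fderiv hg, clm_fderiv hg]

theorem clm_geod (hg : SM.IsMetric g) {γ u : ℝ → E n} :
    IsGeod (clm g) γ u ↔ SM.IsGeod g γ u := by
  constructor
  · rintro ⟨h1, h2, h3⟩
    refine ⟨h1, h2, fun t ht => ?_⟩
    obtain ⟨c, hc, hacc⟩ := h3 t ht
    exact ⟨c, hc, (clm_acc hg).1 hacc⟩
  · rintro ⟨h1, h2, h3⟩
    refine ⟨h1, h2, fun t ht => ?_⟩
    obtain ⟨c, hc, hacc⟩ := h3 t ht
    exact ⟨c, hc, (clm_acc hg).2 hacc⟩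

theorem clm_exp (hg : SM.IsMetric g) {x v y : E n} :
    IsExp (clm g) x v y ↔ SM.IsExp g x v y := by
  unfold IsExp SM.IsExp
  simp only [clm_geod hg]

theorem clm_dom (hg : SM.IsMetric g) (x : E n) : dom (clm g) x = SM.dom g x := by
  unfold dom SM.dom
  simp only [clm_exp hg]

theorem clm_simple (hg : SM.IsSimple g) : IsSimple (clm g) where
  toIsMetric := clm_metric hg.toIsMetric
  convex x v c hx hv hxv hacc := hg.convex x v c hx hv hxv ((clm_acc hg.toIsMetric).1 hacc)
  exp x hx := by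
    obtain ⟨F, h1, h2, h3, G, h4, h5⟩ := hg.exp x hx
    refine ⟨F, G, ?_, ?_, ?_, ?_, h5⟩
    · intro v hv y
      rw [clm_dom hg.toIsMetric] at hv
      rw [clm_exp hg.toIsMetric]
      exact h1 v hv y
    · rwa [clm_dom hg.toIsMetric]
    · rwa [clm_dom hg.toIsMetric]
    · rwa [clm_dom hg.toIsMetric]

theorem clm_len (hg : SM.IsMetric g) (c : ℝ → E n) : len (clm g) c = SM.len g c := by
  unfold len SM.len
  simp only [clm_apply hg]

theorem clm_rdist (hg : SM.IsMetric g) (x y : E n) : rdist (clm g) x y = SM.rdist g x y := by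
  unfold rdist SM.rdist
  simp only [clm_len hg]

theorem clm_same (hg : SM.IsMetric g) (hg' : SM.IsMetric g') {U : Set (E n)}
    (h : SM.SameGeodesics g g' U) : SameGeodesics (clm g) (clm g') U := by
  intro γ u hγ hU
  obtain ⟨τ, σ, ⟨h1, h2, h3, h4, h5⟩, h6⟩ := h γ u ((clm_geod hg).1 hγ) hU
  exact ⟨τ, σ, ⟨h1, h2, h3, h4, h5⟩, (clm_geod hg').2 h6⟩

/-- **Main theorem**, for the definitions of `Pool.Agent.Q176.SM`. -/
theorem mainL (hn : 2 ≤ n) (hg : SM.IsSimple g) (hg' : SM.IsSimple g') {U V : Set (E n)}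
    (hU : IsOpen U) (hV : IsOpen V) (hU' : (U ∩ bdM n).Nonempty) (hV' : (V ∩ bdM n).Nonempty)
    (hs : SM.SameGeodesics g g' (U ∩ bdM n))
    (hd : ∀ x ∈ V ∩ bdM n, ∀ y ∈ U ∩ bdM n, SM.rdist g x y = SM.rdist g' x y) :
    ∀ x ∈ M n, g' x = g x := by
  intro x hx
  have hm := hg.toIsMetric
  have hm' := hg'.toIsMetric
  have h1 := main hn (clm_simple hg) (clm_simple hg') hU hV hU' hV' (clm_same hm hm' hs)
    (fun x hx y hy => by
      rw [clm_rdist hm, clm_rdist hm']
      exact hd x hx y hy) x hx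
  funext v w
  rw [← clm_apply hm, ← clm_apply hm', h1]

/-- The Euclidean metric is simple. -/
theorem euclL : SM.IsSimple (fun _ v w : E n => ⟪v, w⟫_ℝ) := by
  have hm : SM.IsMetric (fun _ v w : E n => ⟪v, w⟫_ℝ) :=
    ⟨fun x v v' w => inner_add_left v v' w, fun x a v w => real_inner_smul_left v w a,
      fun x v w => real_inner_comm w v, fun x v hv => real_inner_self_pos.2 hv,
      fun v w => contDiff_const⟩
  have e : clm (fun _ v w : E n => ⟪v, w⟫_ℝ) = eucl n := by
    funext x
    ext v w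
    rw [clm_apply hm, eucl_apply]
  have hs : IsSimple (clm (fun _ v w : E n => ⟪v, w⟫_ℝ)) := by
    rw [e]
    exact eucl_simple
  refine ⟨hm, ?_, ?_⟩
  · intro x v c hx hv hxv hacc
    exact hs.convex x v c hx hv hxv ((clm_acc hm).2 hacc)
  · intro x hx
    obtain ⟨F, G, h1, h2, h3, h4, h5⟩ := hs.exp x hx
    rw [clm_dom hm] at h1 h2 h3 h4
    refine ⟨F, ?_, h2, h4, G, h3, h5⟩
    intro v hv y
    rw [← clm_exp hm]
    exact h1 v hv y

end Pool.Agent.Q176.BR
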