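import Pool.Agent.Q176.BR.Det

/-!
# The integral of Painlevé, Levi-Civita, Topalov and Matveev
-/

set_option autoImplicit false

namespace Pool.Agent.Q176.BR

open Set Metric Filter Topology
open scoped ContDiff InnerProductSpace BigOperators

variable {n : ℕ} {g g' : Fld n}

/-- The trace of the Christoffel symbols. -/
theorem IsMetric.trace_chr (hg : IsMetric g) (x v : E n) :
    ((gram (g x))⁻¹ * gram (fderiv ℝ g x v)).trace = ∑ i, ((2 : ℝ) • chr g x v (bs i)) i := by
  set G := gram (g x) with hG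
  set N := gram (fderiv ℝ g x v) with hN
  have hu : IsUnit G.det := IsUnit.mk0 _ (hg.det_pos x).ne'
  set A : Matrix (Fin n) (Fin n) ℝ := Matrix.of fun i j => ((2 : ℝ) • chr g x v (bs i)) j with hA
  set K : Matrix (Fin n) (Fin n) ℝ := Matrix.of fun i k =>
    fderiv ℝ g x (bs i) v (bs k) - fderiv ℝ g x (bs k) v (bs i) with hK
  have h1 : A * G = N + K := by
    ext i k
    have h2 : g x ((2 : ℝ) • chr g x v (bs i)) (bs k) = ∑ j, A i j * G j k := by
      conv_lhs => rw [← sum_bs ((2 : ℝ) • chr g x v (bs i))]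
      simp only [map_sum, map_smul, sum_apply, smul_apply, smul_eq_mul]
      rfl
    rw [Matrix.mul_apply, ← h2, map_smul, smul_apply, smul_eq_mul, hg.chr_spec]
    unfold chl
    simp only [hN, hK, Matrix.add_apply, gram_apply, Matrix.of_apply]
    ring
  have h2 : A = (N + K) * G⁻¹ := by
    rw [← h1, Matrix.mul_assoc, Matrix.mul_nonsing_inv _ hu, Matrix.mul_one]
  have h3 : (K * G⁻¹).trace = 0 := by
    have h4 : K.transpose = -K := by
      ext i k
      simp [hK]
    have h5 : G.transpose = G := by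
      ext i k
      exact hg.symm x _ _
    have h6 : (K * G⁻¹).trace = -(K * G⁻¹).trace := by
      conv_lhs => rw [← Matrix.trace_transpose, Matrix.transpose_mul, h4,
        Matrix.transpose_nonsing_inv, h5, Matrix.mul_neg, Matrix.trace_neg, Matrix.trace_mul_comm]
    linarith
  have h7 : A.trace = (G⁻¹ * N).trace := by
    rw [h2, Matrix.add_mul, Matrix.trace_add, h3, add_zero, Matrix.trace_mul_comm]
  rw [← h7]
  rfl

/-- The difference of the traces. -/
theorem trace_diff (hg : IsMetric g) (hg' : IsMetric g') {x v : E n} (hv : v ≠ 0)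
    {S : Set (E n)} (hS : S ∈ 𝓝 v) (h : ∀ z ∈ S, ∃ m : ℝ, dch g g' x z z = m • z) {m0 : ℝ}
    (hm0 : dch g g' x v v = m0 • v) :
    ((gram (g' x))⁻¹ * gram (fderiv ℝ g' x v)).trace -
      ((gram (g x))⁻¹ * gram (fderiv ℝ g x v)).trace = (n + 1) * m0 := by
  rw [hg.trace_chr, hg'.trace_chr, ← Finset.sum_sub_distrib]
  have h1 : ∀ i, ∃ b : ℝ, (2 : ℝ) • dch g g' x v (bs i) = m0 • bs i + b • v := fun i =>
    polar hg hg' hv hS h hm0 (bs i)
  choose b hb using h1
  have h2 : ∀ i, ((2 : ℝ) • chr g' x v (bs i)) i - ((2 : ℝ) • chr g x v (bs i)) i =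
      m0 + b i * v i := by
    intro i
    have h3 := congrArg (fun z : E n => z i) (hb i)
    simp only [dch, bs] at h3
    simp at h3
    simp only [bs]
    simp
    linarith
  rw [Finset.sum_congr rfl (fun i _ => h2 i), Finset.sum_add_distrib]
  have h4 : ∑ i, b i * v i = m0 := by
    have h5 : (2 : ℝ) • dch g g' x v v = m0 • v + (∑ i, b i * v i) • v := by
      have h6 : dch g g' x v v = ∑ i, v i • dch g g' x v (bs i) := by
        have h7 : dch g g' x v v = dch g g' x v (∑ i, v i • bs i) := by rw [sum_bs]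
        rw [h7]
        unfold dch
        rw [hg.chr_sum, hg'.chr_sum, ← Finset.sum_sub_distrib]
        refine Finset.sum_congr rfl (fun i _ => ?_)
        rw [smul_sub]
      rw [h6, Finset.smul_sum]
      have h7 : ∀ i, (2 : ℝ) • v i • dch g g' x v (bs i) =
          m0 • v i • bs i + (b i * v i) • v := by
        intro i
        rw [smul_comm, hb i, smul_add, smul_smul, smul_smul, smul_smul, mul_comm (v i) m0,
          mul_comm (v i) (b i)]
      rw [Finset.sum_congr rfl (fun i _ => h7 i), Finset.sum_add_distrib, ← Finset.smul_sum,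
        sum_bs, ← Finset.sum_smul]
    rw [hm0, smul_smul, ← add_smul] at h5
    have h6 := smul_left_injective ℝ hv h5
    dsimp only at h6
    linarith
  rw [h4]
  simp
  ring

/-- The conserved quantity. -/
theorem conserved (hg : IsMetric g) (hg' : IsMetric g') {γ u : ℝ → E n} (hγ : IsGeod g γ u)
    (hu : u 0 ≠ 0) (h : ∀ t ∈ Ioo (0 : ℝ) 1, ∃ S ∈ 𝓝 (u t), ∀ z ∈ S,
      ∃ m : ℝ, dch g g' (γ t) z z = m • z) :
    (n + 1) * Real.log (g' (γ 0) (u 0) (u 0)) -
      2 * (Real.log (gram (g' (γ 0))).det - Real.log (gram (g (γ 0))).det) =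
    (n + 1) * Real.log (g' (γ 1) (u 1) (u 1)) -
      2 * (Real.log (gram (g' (γ 1))).det - Real.log (gram (g (γ 1))).det) := by
  set Ψ : ℝ → ℝ := fun t => (n + 1) * Real.log (g' (γ t) (u t) (u t)) -
      2 * (Real.log (gram (g' (γ t))).det - Real.log (gram (g (γ t))).det) with hΨ
  have hne : ∀ t ∈ Icc (0 : ℝ) 1, u t ≠ 0 := fun t ht => hγ.ne_zero hg hu ht
  have hdet : ∀ G : Fld n, IsMetric G →
      ContinuousOn (fun t => Real.log (gram (G (γ t))).det) (Icc 0 1) := by
    intro G hG
    have c1 : Continuous (fun x => (gram (G x)).det) := by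
      refine Continuous.matrix_det ?_
      refine continuous_matrix (fun i j => ?_)
      exact (hG.smooth.continuous.clm_apply continuous_const).clm_apply continuous_const
    refine ContinuousOn.log (c1.comp_continuousOn hγ.cont) (fun t _ => (hG.det_pos _).ne')
  have hcont : ContinuousOn Ψ (Icc 0 1) := by
    refine (ContinuousOn.mul continuousOn_const ?_).sub
      (ContinuousOn.mul continuousOn_const ((hdet g' hg').sub (hdet g hg)))
    refine ContinuousOn.log ?_ (fun t ht => (hg'.pos _ _ (hne t ht)).ne')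
    have c1 : ContinuousOn (fun t => g' (γ t)) (Icc 0 1) :=
      hg'.smooth.continuous.comp_continuousOn hγ.cont
    exact (c1.clm_apply hγ.contU).clm_apply hγ.contU
  have hder : ∀ t ∈ Ioo (0 : ℝ) 1, HasDerivAt Ψ 0 t := by
    intro t ht
    have hti : t ∈ Icc (0 : ℝ) 1 := ⟨ht.1.le, ht.2.le⟩
    have hnb := Icc_mem_nhds ht.1 ht.2
    obtain ⟨c, hc, hacc⟩ := hγ.acc t hti
    have f1 : HasDerivAt γ (u t) t := (hγ.vel t hti).hasDerivAt hnb
    have f2 : HasDerivAt u c t := hc.hasDerivAt hnb
    obtain ⟨S, hS, hB⟩ := h t ht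
    obtain ⟨m, hm⟩ := hB (u t) (mem_of_mem_nhds hS)
    have h1 := trace_diff hg hg' (hne t hti) hS hB hm
    have h2 := (hg'.log_det f1).sub (hg.log_det f1)
    rw [h1] at h2
    have hpos := hg'.pos (γ t) (u t) (hne t hti)
    have h3 := (hasDerivAt_form hg' f1 f2 f2).log hpos.ne'
    have h4 : fderiv ℝ g' (γ t) (u t) (u t) (u t) + g' (γ t) c (u t) + g' (γ t) (u t) c =
        2 * m * g' (γ t) (u t) (u t) := by
      have h5 : c = m • u t - chr g' (γ t) (u t) (u t) := by
        rw [(hg.isAcc_iff _ _ _).1 hacc, ← hm]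
        unfold dch
        abel
      rw [hg'.symm (γ t) (u t) c, h5, map_sub, map_smul, sub_apply, smul_apply, smul_eq_mul,
        hg'.chr_spec]
      unfold chl
      ring
    rw [h4, mul_div_assoc, div_self hpos.ne', mul_one] at h3
    refine ((h3.const_mul ((n : ℝ) + 1)).sub (h2.const_mul 2)).congr_deriv ?_
    ring
  obtain ⟨c, -, hc⟩ := exists_hasDerivAt_eq_slope Ψ (fun _ => 0) zero_lt_one hcont hder
  have h1 : Ψ 0 = Ψ 1 := by
    rw [sub_zero, div_one] at hc
    linarith
  exact h1

end Pool.Agent.Q176.BR
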