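import Mathlib

/-!
# Simple metrics on the closed unit ball of `ℝ^n`

A metric is given by a field of bilinear forms on `ℝ^n`. We define geodesics, the exponential
maps, simple metrics and the distance function of the closed unit ball.
-/

set_option autoImplicit false

namespace Pool.Agent.Q176.BR

open Set Metric
open scoped ContDiff InnerProductSpace

/-- Euclidean `n`-space. -/
abbrev E (n : ℕ) := EuclideanSpace ℝ (Fin n)

/-- A field of bilinear forms on `ℝ^n`; `g x v w` is the value of the form at the point `x` on the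
vectors `v`, `w`. -/
abbrev Fld (n : ℕ) := E n → E n →L[ℝ] E n →L[ℝ] ℝ

variable {n : ℕ}

/-- The manifold `M`: the closed unit ball. -/
abbrev M (n : ℕ) : Set (E n) := closedBall 0 1

/-- The boundary of `M`: the unit sphere. -/
abbrev bdM (n : ℕ) : Set (E n) := sphere 0 1

/-- `g` is a smooth Riemannian metric. -/
structure IsMetric (g : Fld n) : Prop where
  smooth : ContDiff ℝ ∞ g
  symm : ∀ x v w, g x v w = g x w v
  pos : ∀ x v, v ≠ 0 → 0 < g x v v

/-- The vector `c` is the acceleration of a geodesic which passes through `x` with velocity `v`: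
`g(c, w) = (1/2) (∂_w g)(v, v) - (∂_v g)(v, w)` for all `w`; in coordinates
`c^k = - Γ^k_ij v^i v^j`. -/
def IsAcc (g : Fld n) (x v c : E n) : Prop :=
  ∀ w, g x c w = 1 / 2 * fderiv ℝ g x w v v - fderiv ℝ g x v v w

/-- `γ : [0,1] → M` is a geodesic of `g` with velocity `u`. -/
structure IsGeod (g : Fld n) (γ u : ℝ → E n) : Prop where
  mem : ∀ t ∈ Icc (0 : ℝ) 1, γ t ∈ M n
  vel : ∀ t ∈ Icc (0 : ℝ) 1, HasDerivWithinAt γ (u t) (Icc 0 1) t
  acc : ∀ t ∈ Icc (0 : ℝ) 1, ∃ c, HasDerivWithinAt u c (Icc 0 1) t ∧ IsAcc g (γ t) (u t) c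

/-- `exp_x v = y`: the geodesic in `M` which starts at `x` with velocity `v` is defined on `[0,1]`
and ends at `y`. -/
def IsExp (g : Fld n) (x v y : E n) : Prop :=
  ∃ γ u : ℝ → E n, IsGeod g γ u ∧ γ 0 = x ∧ u 0 = v ∧ γ 1 = y

/-- The maximal domain of definition of the exponential map `exp_x`. -/
def dom (g : Fld n) (x : E n) : Set (E n) := {v | ∃ y, IsExp g x v y}

/-- `(M, g)` is simple: the boundary is strictly convex (the Hessian of the boundary defining
function `|z|^2/2` is positive on the nonzero tangent vectors of the sphere; its value on `v` is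
`|v|^2 + ⟨x, c⟩` with `c` the acceleration of the geodesic with velocity `v`), and for every `x`
in `M` the exponential map `F = exp_x` is a diffeomorphism (with inverse `G`) of its maximal
domain of definition onto `M`. -/
structure IsSimple (g : Fld n) : Prop extends IsMetric g where
  convex : ∀ x v c : E n, ‖x‖ = 1 → v ≠ 0 → ⟪x, v⟫_ℝ = 0 → IsAcc g x v c →
    0 < ‖v‖ ^ 2 + ⟪x, c⟫_ℝ
  exp : ∀ x ∈ M n, ∃ F G : E n → E n, (∀ v ∈ dom g x, ∀ y, IsExp g x v y ↔ y = F v) ∧
    BijOn F (dom g x) (M n) ∧ InvOn G F (dom g x) (M n) ∧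
    ContDiffOn ℝ ∞ F (dom g x) ∧ ContDiffOn ℝ ∞ G (M n)

/-- The length of a curve `c : [0,1] → M`. -/
noncomputable def len (g : Fld n) (c : ℝ → E n) : ℝ :=
  ∫ t in (0 : ℝ)..1, √(g (c t) (derivWithin c (Icc 0 1) t) (derivWithin c (Icc 0 1) t))

/-- The Riemannian distance of `(M, g)`: the infimum of the lengths of the `C¹` curves in `M`. -/
noncomputable def rdist (g : Fld n) (x y : E n) : ℝ :=
  sInf {L | ∃ c : ℝ → E n, ContDiffOn ℝ 1 c (Icc 0 1) ∧ (∀ t ∈ Icc (0 : ℝ) 1, c t ∈ M n) ∧
    c 0 = x ∧ c 1 = y ∧ L = len g c}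

/-- `τ : [0,1] → [0,1]` is an orientation preserving twice differentiable change of the parameter
with derivative `σ`. -/
structure IsRep (τ σ : ℝ → ℝ) : Prop where
  zero : τ 0 = 0
  one : τ 1 = 1
  der : ∀ t ∈ Icc (0 : ℝ) 1, HasDerivWithinAt τ (σ t) (Icc 0 1) t
  diff : DifferentiableOn ℝ σ (Icc 0 1)
  pos : ∀ t ∈ Icc (0 : ℝ) 1, 0 < σ t

end Pool.Agent.Q176.BR
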