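import Pool.Agent.Q176.BR.Proj

/-!
# The determinants
-/

set_option autoImplicit false

namespace Pool.Agent.Q176.BR

open Set Metric Filter Topology
open scoped ContDiff InnerProductSpace BigOperators

variable {n : ℕ} {g g' : Fld n}

/-- The standard basis vector. -/
noncomputable def bs (i : Fin n) : E n := EuclideanSpace.single i (1 : ℝ)

theorem sum_bs (v : E n) : ∑ i, v i • bs i = v := by
  ext j
  simp only [bs, PiLp.single_apply, WithLp.ofLp_sum, Finset.sum_apply,
    smul_eq_mul, mul_ite, mul_one, mul_zero, WithLp.ofLp_smul, Pi.smul_apply]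
  simp

/-- The Gram matrix of a form. -/
noncomputable def gram (a : E n →L[ℝ] E n →L[ℝ] ℝ) : Matrix (Fin n) (Fin n) ℝ :=
  Matrix.of fun i j => a (bs i) (bs j)

theorem gram_apply (a : E n →L[ℝ] E n →L[ℝ] ℝ) (i j : Fin n) :
    gram a i j = a (bs i) (bs j) := rfl

theorem form_eq_gram (a : E n →L[ℝ] E n →L[ℝ] ℝ) (v w : E n) :
    a v w = ∑ i, ∑ j, v i * w j * gram a i j := by
  conv_lhs => rw [← sum_bs v, ← sum_bs w]
  simp only [map_sum, map_smul, sum_apply, smul_apply, smul_eq_mul, gram_apply]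
  rw [Finset.sum_comm]
  refine Finset.sum_congr rfl (fun i _ => ?_)
  rw [Finset.mul_sum]
  refine Finset.sum_congr rfl (fun j _ => ?_)
  ring

theorem IsMetric.posDef (hg : IsMetric g) (x : E n) : (gram (g x)).PosDef := by
  refine Matrix.PosDef.of_dotProduct_mulVec_pos ?_ (fun v hv => ?_)
  · ext i j
    simp only [Matrix.conjTranspose_apply, star_trivial, gram_apply]
    exact hg.symm x _ _
  · have h1 : (WithLp.toLp 2 v : E n) ≠ 0 := by
      intro h
      apply hv
      have := congrArg WithLp.ofLp h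
      simpa using this
    have h2 := hg.pos x _ h1
    rw [form_eq_gram] at h2
    refine h2.trans_eq ?_
    simp only [star_trivial, dotProduct, Matrix.mulVec, Finset.mul_sum]
    refine Finset.sum_congr rfl (fun i _ => Finset.sum_congr rfl (fun j _ => ?_))
    ring

theorem IsMetric.det_pos (hg : IsMetric g) (x : E n) : 0 < (gram (g x)).det :=
  (hg.posDef x).det_pos

theorem det_line {ι : Type} [Fintype ι] [DecidableEq ι] (C A : Matrix ι ι ℝ)
    (hC : IsUnit C.det) :
    HasDerivAt (fun s : ℝ => (C + s • A).det) (C.det * (C⁻¹ * A).trace) 0 := by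
  have h1 : ∀ s : ℝ, (C + s • A).det = C.det * (1 + s • (C⁻¹ * A)).det := by
    intro s
    rw [← Matrix.det_mul, Matrix.mul_add, Matrix.mul_one, Matrix.mul_smul, ← Matrix.mul_assoc,
      Matrix.mul_nonsing_inv _ hC, Matrix.one_mul]
  have h2 : (fun s : ℝ => (C + s • A).det) = fun s : ℝ => C.det * (1 + (C⁻¹ * A).trace * s +
      (Matrix.det (1 + (Polynomial.X : Polynomial ℝ) • (C⁻¹ * A).map Polynomial.C)).divX.divX.eval s
        * s ^ 2) := by
    funext s
    rw [h1, Matrix.det_one_add_smul]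
  rw [h2]
  set P : Polynomial ℝ :=
    (Matrix.det (1 + (Polynomial.X : Polynomial ℝ) • (C⁻¹ * A).map Polynomial.C)).divX.divX with hP
  have h3 : HasDerivAt (fun s : ℝ => P.eval s * s ^ 2)
      (P.derivative.eval 0 * (0:ℝ) ^ 2 + P.eval 0 * (((2 : ℕ) : ℝ) * (0:ℝ) ^ (2 - 1))) 0 :=
    (P.hasDerivAt 0).mul (hasDerivAt_pow 2 (0:ℝ))
  have h4 : HasDerivAt (fun s : ℝ => (C⁻¹ * A).trace * s) ((C⁻¹ * A).trace * 1) 0 :=
    (hasDerivAt_id (0:ℝ)).const_mul _
  have h5 := (((hasDerivAt_const (0:ℝ) (1:ℝ)).add h4).add h3).const_mul C.det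
  refine h5.congr_deriv ?_
  simp

/-- The derivative of a determinant along a curve of matrices. -/
theorem det_curve {ι : Type} [Fintype ι] [DecidableEq ι] {m : ℝ → Matrix ι ι ℝ}
    {A : Matrix ι ι ℝ} {t : ℝ} (hC : IsUnit (m t).det)
    (h : ∀ i j, HasDerivAt (fun s => m s i j) (A i j) t) :
    HasDerivAt (fun s => (m s).det) ((m t).det * ((m t)⁻¹ * A).trace) t := by
  have key : ∀ (m : ℝ → Matrix ι ι ℝ) (t : ℝ),
      (∀ i j, HasDerivAt (fun s => m s i j) (A i j) t) →
      HasDerivAt (fun s => (m s).det) (∑ σ : Equiv.Perm ι, (Equiv.Perm.sign σ : ℤ) •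
        (∑ i, (∏ j ∈ Finset.univ.erase i, m t (σ j) j) • A (σ i) i)) t := by
    intro m t h
    simp only [Matrix.det_apply]
    refine HasDerivAt.fun_sum (fun σ _ => ?_)
    have h1 := HasDerivAt.fun_finsetProd (u := Finset.univ)
      (f := fun (i : ι) (s : ℝ) => m s (σ i) i) (f' := fun i => A (σ i) i)
      (fun i _ => h (σ i) i)
    have h2 := h1.const_smul (Equiv.Perm.sign σ : ℤ)
    exact h2
  have h1 := key m t h
  have h2 : ∀ i j, HasDerivAt (fun s : ℝ => (m t + s • A) i j) (A i j) 0 := by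
    intro i j
    simp only [Matrix.add_apply, Matrix.smul_apply, smul_eq_mul]
    simpa using ((hasDerivAt_id (0 : ℝ)).mul_const (A i j)).const_add (m t i j)
  have h3 := key (fun s => m t + s • A) 0 h2
  simp only [zero_smul, add_zero] at h3
  have h4 := h3.unique (det_line (m t) A hC)
  rw [h4] at h1
  exact h1

/-- The logarithmic derivative of the determinant of a metric. -/
theorem IsMetric.log_det (hg : IsMetric g) {γ : ℝ → E n} {v : E n} {t : ℝ}
    (h : HasDerivAt γ v t) :
    HasDerivAt (fun s => Real.log (gram (g (γ s))).det)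
      (((gram (g (γ t)))⁻¹ * gram (fderiv ℝ g (γ t) v)).trace) t := by
  have hpos := hg.det_pos (γ t)
  have h1 : ∀ i j, HasDerivAt (fun s => gram (g (γ s)) i j) (gram (fderiv ℝ g (γ t) v) i j) t := by
    intro i j
    have h2 := hasDerivAt_form hg h (hasDerivAt_const t (bs i)) (hasDerivAt_const t (bs j))
    simpa [gram_apply] using h2
  have h2 := (det_curve (IsUnit.mk0 _ hpos.ne') h1).log hpos.ne'
  refine h2.congr_deriv ?_
  rw [mul_div_cancel_left₀ _ hpos.ne']

end Pool.Agent.Q176.BR
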