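import Pool.Agent.Q176.BR.Gauss

/-!
# The distance function of a simple metric
-/

set_option autoImplicit false

namespace Pool.Agent.Q176.BR

open Set Metric Filter Topology MeasureTheory
open scoped ContDiff InnerProductSpace

variable {n : ℕ} {g : Fld n}

/-- The Cauchy-Schwarz inequality. -/
theorem IsMetric.cauchy (hg : IsMetric g) (x a b : E n) :
    g x a b ≤ √(g x a a) * √(g x b b) := by
  rcases eq_or_ne b 0 with rfl | hb
  · simp
  have hb' := hg.pos x b hb
  have h1 := hg.nonneg x (a - (g x a b / g x b b) • b)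
  simp only [map_sub, map_smul, sub_apply, smul_apply, smul_eq_mul] at h1
  rw [hg.symm x b a] at h1
  have h2 : g x a a - g x a b / g x b b * g x a b -
      (g x a b / g x b b) * (g x a b - g x a b / g x b b * g x b b) =
      g x a a - g x a b ^ 2 / g x b b := by
    field_simp
    ring
  have h3 : 0 ≤ g x a a - g x a b ^ 2 / g x b b := by
    rw [← h2]
    linarith
  have h4 : g x a b ^ 2 ≤ g x a a * g x b b := by
    rw [sub_nonneg, div_le_iff₀ hb'] at h3
    exact h3
  rw [← Real.sqrt_mul (hg.nonneg x a)]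
  exact Real.le_sqrt_of_sq_le h4

theorem IsGeod.contDiffOn {γ u : ℝ → E n} (h : IsGeod g γ u) :
    ContDiffOn ℝ 1 γ (Icc 0 1) := by
  rw [contDiffOn_one_iff_derivWithin (uniqueDiffOn_Icc (zero_lt_one (α := ℝ)))]
  refine ⟨fun t ht => (h.vel t ht).differentiableWithinAt, ?_⟩
  refine h.contU.congr (fun t ht => ?_)
  exact (h.vel t ht).derivWithin (uniqueDiffOn_Icc (zero_lt_one (α := ℝ)) t ht)

theorem IsGeod.len_eq (hg : IsMetric g) {γ u : ℝ → E n} (h : IsGeod g γ u) :
    len g γ = √(g (γ 0) (u 0) (u 0)) := by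
  unfold len
  rw [intervalIntegral.integral_congr (g := fun _ => √(g (γ 0) (u 0) (u 0)))]
  · simp
  · intro t ht
    rw [uIcc_of_le zero_le_one] at ht
    dsimp only
    rw [(h.vel t ht).derivWithin (uniqueDiffOn_Icc (zero_lt_one (α := ℝ)) t ht),
      h.speed hg t ht]

/-- Geodesics of a simple metric are minimizing. -/
theorem IsSimple.le_len (hg : IsSimple g) {c : ℝ → E n} (hc : ContDiffOn ℝ 1 c (Icc 0 1))
    (hM : ∀ t ∈ Icc (0 : ℝ) 1, c t ∈ M n) :
    √(g (c 0) (lg g (c 0) (c 1)) (lg g (c 0) (c 1))) ≤ len g c := by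
  have hm := hg.toIsMetric
  have hx := hM 0 ⟨le_rfl, zero_le_one⟩
  set x := c 0 with hxdef
  have hud := uniqueDiffOn_Icc (zero_lt_one (α := ℝ))
  have hcd : ∀ t ∈ Icc (0 : ℝ) 1, HasDerivWithinAt c (derivWithin c (Icc 0 1) t) (Icc 0 1) t :=
    fun t ht => (hc.differentiableOn (by simp) t ht).hasDerivWithinAt
  have hcc : ContinuousOn (derivWithin c (Icc 0 1)) (Icc 0 1) :=
    hc.continuousOn_derivWithin hud (by simp)
  set w : ℝ → E n := fun s => lg g x (c s) with hw
  have hwd : ∀ t ∈ Icc (0 : ℝ) 1,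
      HasDerivWithinAt w (dlg g x (c t) (derivWithin c (Icc 0 1) t)) (Icc 0 1) t := fun t ht =>
    (hg.hasFDeriv hx (hM t ht)).comp_hasDerivWithinAt t (hcd t ht) (fun s hs => hM s hs)
  have hφ : ContinuousOn (fun t => √(g (c t) (derivWithin c (Icc 0 1) t)
      (derivWithin c (Icc 0 1) t))) (Icc 0 1) := by
    refine ContinuousOn.sqrt ?_
    have c1 : ContinuousOn (fun t => g (c t)) (Icc 0 1) :=
      hm.smooth.continuous.comp_continuousOn hc.continuousOn
    exact (c1.clm_apply hcc).clm_apply hcc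
  have key : ∀ ε > 0, √(g x (w 1) (w 1) + ε) - √ε ≤ len g c := by
    intro ε hε
    have hpos : ∀ s, 0 < g x (w s) (w s) + ε := fun s =>
      add_pos_of_nonneg_of_pos (hm.nonneg x (w s)) hε
    have hd : ∀ t ∈ Icc (0 : ℝ) 1, HasDerivWithinAt (fun s => √(g x (w s) (w s) + ε))
        (2 * g x (w t) (dlg g x (c t) (derivWithin c (Icc 0 1) t)) /
          (2 * √(g x (w t) (w t) + ε))) (Icc 0 1) t := by
      intro t ht
      have h1 := hasDerivWithinAt_form hm (hasDerivWithinAt_const t (Icc (0 : ℝ) 1) x)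
        (hwd t ht) (hwd t ht)
      refine ((h1.add_const ε).sqrt (hpos t).ne').congr_deriv ?_
      rw [hm.symm x (dlg g x (c t) (derivWithin c (Icc 0 1) t)) (w t)]
      simp only [map_zero, zero_apply, zero_add]
      ring
    have h2 := intervalIntegral.sub_le_integral_of_hasDeriv_right_of_le (zero_le_one (α := ℝ))
      (g := fun s => √(g x (w s) (w s) + ε))
      (g' := fun t => 2 * g x (w t) (dlg g x (c t) (derivWithin c (Icc 0 1) t)) /
          (2 * √(g x (w t) (w t) + ε)))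
      (φ := fun t => √(g (c t) (derivWithin c (Icc 0 1) t) (derivWithin c (Icc 0 1) t)))
      (fun t ht => (hd t ht).continuousWithinAt)
      (fun t ht => (hd t ⟨ht.1.le, ht.2.le⟩).mono_of_mem_nhdsWithin
        (mem_nhdsWithin_of_mem_nhds (Icc_mem_nhds ht.1 ht.2)))
      (hφ.integrableOn_Icc) ?_
    · have h3 : w 0 = 0 := hg.lg_self hx
      simp only [h3, map_zero, zero_add] at h2
      exact h2
    · intro t ht
      have ht' : t ∈ Icc (0 : ℝ) 1 := ⟨ht.1.le, ht.2.le⟩
      have h3 := hg.gauss hx (hM t ht') (derivWithin c (Icc 0 1) t)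
      have h4 := hm.cauchy (c t) (tv g x (c t)) (derivWithin c (Icc 0 1) t)
      rw [hg.norm_tv hx (hM t ht')] at h4
      change 2 * g x (lg g x (c t)) (dlg g x (c t) (derivWithin c (Icc 0 1) t)) /
          (2 * √(g x (w t) (w t) + ε)) ≤ _
      rw [← h3]
      have h5 : √(g x (w t) (w t)) ≤ √(g x (w t) (w t) + ε) :=
        Real.sqrt_le_sqrt (by linarith)
      have h6 : 0 < √(g x (w t) (w t) + ε) := Real.sqrt_pos.2 (hpos t)
      rw [div_le_iff₀ (by positivity)]
      have h7 : √(g x (lg g x (c t)) (lg g x (c t))) *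
          √(g (c t) (derivWithin c (Icc 0 1) t) (derivWithin c (Icc 0 1) t)) ≤
          √(g x (w t) (w t) + ε) *
          √(g (c t) (derivWithin c (Icc 0 1) t) (derivWithin c (Icc 0 1) t)) :=
        mul_le_mul_of_nonneg_right h5 (Real.sqrt_nonneg _)
      nlinarith
  have hlim : Tendsto (fun ε : ℝ => √(g x (w 1) (w 1) + ε) - √ε) (𝓝[>] 0)
      (𝓝 (√(g x (w 1) (w 1) + 0) - √0)) := by
    have h1 : Continuous (fun ε : ℝ => √(g x (w 1) (w 1) + ε) - √ε) := by fun_prop
    exact (h1.tendsto 0).mono_left nhdsWithin_le_nhds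
  rw [add_zero, Real.sqrt_zero, sub_zero] at hlim
  exact le_of_tendsto hlim (by filter_upwards [self_mem_nhdsWithin] with ε hε using key ε hε)

/-- The distance function of a simple metric. -/
theorem IsSimple.rdist_eq (hg : IsSimple g) {x y : E n} (hx : x ∈ M n) (hy : y ∈ M n) :
    rdist g x y = √(g x (lg g x y) (lg g x y)) := by
  refine IsLeast.csInf_eq ⟨?_, ?_⟩
  · obtain ⟨γ, u, hγ, h0, h1, hu0, -⟩ := hg.exists_geod hx hy
    refine ⟨γ, hγ.contDiffOn, hγ.mem, h0, h1, ?_⟩
    rw [hγ.len_eq hg.toIsMetric, h0, hu0]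
  · rintro L ⟨c, hc, hM, rfl, rfl, rfl⟩
    exact hg.le_len hc hM

end Pool.Agent.Q176.BR
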