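import Pool.Agent.Q176.BR.Geo

/-!
# The inverse exponential maps
-/

set_option autoImplicit false

namespace Pool.Agent.Q176.BR

open Set Metric Filter Topology
open scoped ContDiff InnerProductSpace

variable {n : ℕ}

/-- The inverse exponential map at `x`. -/
noncomputable def lg (g : Fld n) (x y : E n) : E n :=
  open scoped Classical in if h : ∃ v, IsExp g x v y then h.choose else 0

/-- The exponential map at `x`. -/
noncomputable def ex (g : Fld n) (x v : E n) : E n :=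
  open scoped Classical in if h : ∃ y, IsExp g x v y then h.choose else 0

variable {g : Fld n}

theorem IsSimple.exists_exp (hg : IsSimple g) {x y : E n} (hx : x ∈ M n) (hy : y ∈ M n) :
    ∃ v, IsExp g x v y := by
  obtain ⟨F, G, h1, h2, h3, -, -⟩ := hg.exp x hx
  obtain ⟨v, hv, rfl⟩ := h2.surjOn hy
  exact ⟨v, (h1 v hv _).2 rfl⟩

theorem IsSimple.isExp_lg (hg : IsSimple g) {x y : E n} (hx : x ∈ M n) (hy : y ∈ M n) :
    IsExp g x (lg g x y) y := by
  have h := hg.exists_exp hx hy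
  unfold lg
  rw [dif_pos h]
  exact h.choose_spec

theorem IsExp.mem {x v y : E n} (h : IsExp g x v y) : v ∈ dom g x := ⟨y, h⟩

theorem IsExp.tgt {x v y : E n} (h : IsExp g x v y) : y ∈ M n := by
  obtain ⟨γ, u, h1, -, -, rfl⟩ := h
  exact h1.mem 1 ⟨zero_le_one, le_rfl⟩

theorem IsSimple.uniq (hg : IsSimple g) {x v v' y : E n} (hx : x ∈ M n) (h : IsExp g x v y)
    (h' : IsExp g x v' y) : v = v' := by
  obtain ⟨F, G, h1, h2, h3, -, -⟩ := hg.exp x hx
  have e1 := (h1 v h.mem y).1 h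
  have e2 := (h1 v' h'.mem y).1 h'
  exact h2.injOn h.mem h'.mem (e1.symm.trans e2)

theorem IsSimple.uniq' (hg : IsSimple g) {x v y y' : E n} (hx : x ∈ M n) (h : IsExp g x v y)
    (h' : IsExp g x v y') : y = y' := by
  obtain ⟨F, G, h1, h2, h3, -, -⟩ := hg.exp x hx
  rw [(h1 v h.mem y).1 h, (h1 v h.mem y').1 h']

theorem IsSimple.eq_lg (hg : IsSimple g) {x v y : E n} (hx : x ∈ M n) (h : IsExp g x v y) :
    v = lg g x y := hg.uniq hx h (hg.isExp_lg hx h.tgt)

theorem IsSimple.isExp_ex (hg : IsSimple g) {x v : E n} (hv : v ∈ dom g x) :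
    IsExp g x v (ex g x v) := by
  have h : ∃ y, IsExp g x v y := hv
  unfold ex
  rw [dif_pos h]
  exact h.choose_spec

theorem IsSimple.eq_ex (hg : IsSimple g) {x v y : E n} (hx : x ∈ M n) (h : IsExp g x v y) :
    y = ex g x v := hg.uniq' hx h (hg.isExp_ex h.mem)

theorem IsSimple.ex_lg (hg : IsSimple g) {x y : E n} (hx : x ∈ M n) (hy : y ∈ M n) :
    ex g x (lg g x y) = y := (hg.eq_ex hx (hg.isExp_lg hx hy)).symm

theorem IsSimple.lg_ex (hg : IsSimple g) {x v : E n} (hx : x ∈ M n) (hv : v ∈ dom g x) :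
    lg g x (ex g x v) = v := (hg.eq_lg hx (hg.isExp_ex hv)).symm

theorem IsSimple.lg_mem (hg : IsSimple g) {x y : E n} (hx : x ∈ M n) (hy : y ∈ M n) :
    lg g x y ∈ dom g x := (hg.isExp_lg hx hy).mem

theorem IsSimple.contDiffOn_lg (hg : IsSimple g) {x : E n} (hx : x ∈ M n) :
    ContDiffOn ℝ ∞ (lg g x) (M n) := by
  obtain ⟨F, G, h1, h2, h3, h4, h5⟩ := hg.exp x hx
  refine h5.congr (fun y hy => ?_)
  obtain ⟨v, hv, rfl⟩ := h2.surjOn hy
  rw [h3.1 hv]
  exact (hg.eq_lg hx ((h1 v hv _).2 rfl)).symm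

theorem IsSimple.contDiffOn_ex (hg : IsSimple g) {x : E n} (hx : x ∈ M n) :
    ContDiffOn ℝ ∞ (ex g x) (dom g x) := by
  obtain ⟨F, G, h1, h2, h3, h4, h5⟩ := hg.exp x hx
  refine h4.congr (fun v hv => ?_)
  exact (h1 v hv _).1 (hg.isExp_ex hv)

theorem IsGeod.isExp {γ u : ℝ → E n} (h : IsGeod g γ u) : IsExp g (γ 0) (u 0) (γ 1) :=
  ⟨γ, u, h, rfl, rfl, rfl⟩

/-- Along a geodesic the inverse exponential map is linear. -/
theorem IsGeod.lg_eq (hg : IsSimple g) {γ u : ℝ → E n} (h : IsGeod g γ u) {t : ℝ}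
    (ht : t ∈ Icc (0 : ℝ) 1) : lg g (γ 0) (γ t) = t • u 0 := by
  have h1 := (h.restrict ht).isExp
  simp only [mul_zero, mul_one] at h1
  exact (hg.eq_lg (h.mem 0 ⟨le_rfl, zero_le_one⟩) h1).symm

theorem IsGeod.eq_ex (hg : IsSimple g) {γ u : ℝ → E n} (h : IsGeod g γ u) {t : ℝ}
    (ht : t ∈ Icc (0 : ℝ) 1) : γ t = ex g (γ 0) (t • u 0) := by
  have h1 := (h.restrict ht).isExp
  simp only [mul_zero, mul_one] at h1
  exact hg.eq_ex (h.mem 0 ⟨le_rfl, zero_le_one⟩) h1

theorem isGeod_const {x : E n} (hx : x ∈ M n) : IsGeod g (fun _ => x) (fun _ => 0) :=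
  ⟨fun _ _ => hx, fun t _ => hasDerivWithinAt_const t _ x, fun t _ => ⟨0,
    hasDerivWithinAt_const t _ 0, fun w => by simp⟩⟩

theorem IsSimple.lg_self (hg : IsSimple g) {x : E n} (hx : x ∈ M n) : lg g x x = 0 :=
  (hg.eq_lg hx (isGeod_const hx).isExp).symm

theorem IsSimple.lg_ne_zero (hg : IsSimple g) {x y : E n} (hx : x ∈ M n) (hy : y ∈ M n)
    (hxy : x ≠ y) : lg g x y ≠ 0 := by
  intro h
  have h1 := hg.isExp_lg hx hy
  rw [h] at h1
  exact hxy (hg.uniq' hx (isGeod_const hx).isExp h1)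

theorem uniqueDiff : UniqueDiffOn ℝ (M n) :=
  uniqueDiffOn_convex (convex_closedBall 0 1) (by
    rw [interior_closedBall (0 : E n) one_ne_zero]
    exact ⟨0, mem_ball_self one_pos⟩)

/-- The derivative of the inverse exponential map. -/
noncomputable def dlg (g : Fld n) (x y : E n) : E n →L[ℝ] E n := fderivWithin ℝ (lg g x) (M n) y

theorem IsSimple.hasFDeriv (hg : IsSimple g) {x y : E n} (hx : x ∈ M n) (hy : y ∈ M n) :
    HasFDerivWithinAt (lg g x) (dlg g x y) (M n) y :=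
  ((hg.contDiffOn_lg hx).differentiableOn (by simp) y hy).hasFDerivWithinAt

theorem IsSimple.continuousOn_dlg (hg : IsSimple g) {x : E n} (hx : x ∈ M n) :
    ContinuousOn (dlg g x) (M n) :=
  (hg.contDiffOn_lg hx).continuousOn_fderivWithin uniqueDiff (by simp)

/-- The derivative of the inverse exponential map is injective. -/
theorem IsSimple.exists_left_inv (hg : IsSimple g) {x y : E n} (hx : x ∈ M n) (hy : y ∈ M n) :
    ∃ B : E n →L[ℝ] E n, HasFDerivWithinAt (ex g x) B (dom g x) (lg g x y) ∧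
      B.comp (dlg g x y) = ContinuousLinearMap.id ℝ (E n) := by
  have h1 := ((hg.contDiffOn_ex hx).differentiableOn (by simp) _
    (hg.lg_mem hx hy)).hasFDerivWithinAt
  refine ⟨_, h1, ?_⟩
  have h2 := h1.comp y (hg.hasFDeriv hx hy) (fun z hz => hg.lg_mem hx hz)
  have h3 : HasFDerivWithinAt (ex g x ∘ lg g x) (ContinuousLinearMap.id ℝ (E n)) (M n) y :=
    (hasFDerivWithinAt_id y (M n)).congr (fun z hz => hg.ex_lg hx hz) (hg.ex_lg hx hy)
  exact (uniqueDiff y hy).eq h2 h3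

/-- The derivative of the inverse exponential map as an isomorphism. -/
theorem IsSimple.exists_equiv (hg : IsSimple g) {x y : E n} (hx : x ∈ M n) (hy : y ∈ M n) :
    ∃ e : E n ≃L[ℝ] E n, (e : E n →L[ℝ] E n) = dlg g x y := by
  obtain ⟨B, -, hB⟩ := hg.exists_left_inv hx hy
  have hinj : Function.Injective (dlg g x y : E n →ₗ[ℝ] E n) := by
    intro a b hab
    have h1 := congrArg B hab
    have h2 := fun z => congrArg (fun L : E n →L[ℝ] E n => L z) hB
    simp only [ContinuousLinearMap.comp_apply, ContinuousLinearMap.id_apply] at h2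
    change B (dlg g x y a) = B (dlg g x y b) at h1
    rwa [h2, h2] at h1
  refine ⟨(LinearEquiv.ofInjectiveEndo _ hinj).toContinuousLinearEquiv, ?_⟩
  ext z
  rfl

end Pool.Agent.Q176.BR
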