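import Pool.Agent.Q176.BR.Inv

/-!
# The Gauss lemma
-/

set_option autoImplicit false

namespace Pool.Agent.Q176.BR

open Set Metric Filter Topology
open scoped ContDiff InnerProductSpace

variable {n : ℕ} {g : Fld n}

theorem hasDerivAt_form {g : Fld n} (hg : IsMetric g) {γ a b : ℝ → E n} {v a' b' : E n}
    {t : ℝ} (hγ : HasDerivAt γ v t) (ha : HasDerivAt a a' t) (hb : HasDerivAt b b' t) :
    HasDerivAt (fun r => g (γ r) (a r) (b r))
      (fderiv ℝ g (γ t) v (a t) (b t) + g (γ t) a' (b t) + g (γ t) (a t) b') t := by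
  rw [← hasDerivWithinAt_univ] at *
  exact hasDerivWithinAt_form hg hγ ha hb

theorem curve_s (t0 s0 : ℝ) : HasDerivAt (fun s : ℝ => (t0, s)) ((0 : ℝ), (1 : ℝ)) s0 :=
  (hasDerivAt_const s0 t0).prodMk (hasDerivAt_id s0)

theorem curve_t (t s : ℝ) : HasDerivAt (fun t : ℝ => (t, s)) ((1 : ℝ), (0 : ℝ)) t :=
  (hasDerivAt_id t).prodMk (hasDerivAt_const t s)

/-- The first variation of the energy, infinitesimal form. -/
theorem first_variation (hm : IsMetric g) {β : ℝ × ℝ → E n} {t0 : ℝ}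
    (hβ : ContDiffAt ℝ ∞ β (t0, 0)) {En : ℝ → ℝ} {e : ℝ} (hEn : HasDerivAt En (2 * e) 0)
    (henergy : ∀ᶠ p in 𝓝 (t0, (0 : ℝ)),
      g (β p) (fderiv ℝ β p (1, 0)) (fderiv ℝ β p (1, 0)) = En p.2)
    {γ u w : ℝ → E n} (hγ : ∀ᶠ t in 𝓝 t0, β (t, 0) = γ t)
    (hu : ∀ᶠ t in 𝓝 t0, fderiv ℝ β (t, 0) (1, 0) = u t)
    (hw : ∀ᶠ t in 𝓝 t0, fderiv ℝ β (t, 0) (0, 1) = w t)
    {c : E n} (h1 : HasDerivAt γ (u t0) t0) (h2 : HasDerivAt u c t0)
    (hacc : IsAcc g (γ t0) (u t0) c) :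
    HasDerivAt (fun t => g (γ t) (u t) (w t)) e t0 := by
  have hD : HasFDerivAt β (fderiv ℝ β (t0, 0)) (t0, 0) :=
    (hβ.differentiableAt (by simp)).hasFDerivAt
  have hD2 : HasFDerivAt (fderiv ℝ β) (fderiv ℝ (fderiv ℝ β) (t0, 0)) (t0, 0) := by
    have h2 : ContDiffAt ℝ 1 (fderiv ℝ β) (t0, 0) := hβ.fderiv_right (by
      rw [one_add_one_eq_two]
      exact WithTop.coe_le_coe.2 le_top)
    exact (h2.differentiableAt (by simp)).hasFDerivAt
  have hsym : fderiv ℝ (fderiv ℝ β) (t0, 0) (0, 1) (1, 0) =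
      fderiv ℝ (fderiv ℝ β) (t0, 0) (1, 0) (0, 1) :=
    (hβ.isSymmSndFDerivAt (by
      rw [minSmoothness_of_isRCLikeNormedField]
      exact WithTop.coe_le_coe.2 le_top)) (0, 1) (1, 0)
  have d1 : HasDerivAt (fun s : ℝ => fderiv ℝ β (t0, s) (1, 0))
      (fderiv ℝ (fderiv ℝ β) (t0, 0) (0, 1) (1, 0)) 0 := by
    have h4 : HasDerivAt (fun s : ℝ => fderiv ℝ β (t0, s))
        (fderiv ℝ (fderiv ℝ β) (t0, 0) (0, 1)) 0 :=
      HasFDerivAt.comp_hasDerivAt (f := fun s : ℝ => (t0, s)) (0 : ℝ) hD2 (curve_s t0 0)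
    have h3 := h4.clm_apply (hasDerivAt_const (0 : ℝ) ((1 : ℝ), (0 : ℝ)))
    rw [map_zero, add_zero] at h3
    exact h3
  have d2 : HasDerivAt (fun t : ℝ => fderiv ℝ β (t, 0) (0, 1))
      (fderiv ℝ (fderiv ℝ β) (t0, 0) (0, 1) (1, 0)) t0 := by
    have h4 : HasDerivAt (fun t : ℝ => fderiv ℝ β (t, 0))
        (fderiv ℝ (fderiv ℝ β) (t0, 0) (1, 0)) t0 :=
      HasFDerivAt.comp_hasDerivAt (f := fun t : ℝ => (t, (0 : ℝ))) t0 hD2 (curve_t t0 0)
    have h3 := h4.clm_apply (hasDerivAt_const t0 ((0 : ℝ), (1 : ℝ)))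
    rw [map_zero, add_zero] at h3
    rw [hsym]
    exact h3
  have d3 : HasDerivAt (fun s : ℝ => β (t0, s)) (fderiv ℝ β (t0, 0) (0, 1)) 0 :=
    HasFDerivAt.comp_hasDerivAt (f := fun s : ℝ => (t0, s)) (0 : ℝ) hD (curve_s t0 0)
  generalize fderiv ℝ (fderiv ℝ β) (t0, 0) (0, 1) (1, 0) = m at d1 d2
  have d4 := hasDerivAt_form hm d3 d1 d1
  have h8 : (fun s : ℝ => g (β (t0, s)) (fderiv ℝ β (t0, s) (1, 0))
      (fderiv ℝ β (t0, s) (1, 0))) =ᶠ[𝓝 0] En := by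
    have h9 : Tendsto (fun s : ℝ => (t0, s)) (𝓝 0) (𝓝 (t0, (0 : ℝ))) :=
      (curve_s t0 0).continuousAt
    exact h9.eventually henergy
  have h10 := d4.unique (hEn.congr_of_eventuallyEq h8)
  have f3 : HasDerivAt w m t0 := d2.congr_of_eventuallyEq (by
    filter_upwards [hw] with t ht using ht.symm)
  refine (hasDerivAt_form hm h1 h2 f3).congr_deriv ?_
  rw [hγ.self_of_nhds, hu.self_of_nhds, hw.self_of_nhds, hm.symm (γ t0) m (u t0)] at h10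
  rw [hacc]
  linarith

/-- The variation of a geodesic through its end point. -/
noncomputable def vrt (g : Fld n) (x y ξ : E n) (p : ℝ × ℝ) : E n :=
  ex g x (p.1 • lg g x (y + p.2 • ξ))

theorem IsSimple.lg_at (hg : IsSimple g) {x y : E n} (hx : x ∈ M n) (hy : y ∈ ball (0 : E n) 1) :
    ContDiffAt ℝ ∞ (lg g x) y := (hg.contDiffOn_lg hx).contDiffAt
      (mem_of_superset (isOpen_ball.mem_nhds hy) ball_subset_closedBall)

theorem vrt_contDiffAt (hg : IsSimple g) {x y : E n} (hx : x ∈ M n)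
    (hy : y ∈ ball (0 : E n) 1) (ξ : E n) {t : ℝ} {z : E n} (hz : z ∈ ball (0 : E n) 1)
    (hlg : lg g x z = t • lg g x y) : ContDiffAt ℝ ∞ (vrt g x y ξ) (t, 0) := by
  have h3 : ContDiffAt ℝ ∞ (fun p : ℝ × ℝ => y + p.2 • ξ) (t, 0) :=
    contDiffAt_const.add (contDiffAt_snd.smul contDiffAt_const)
  have h4 : ContDiffAt ℝ ∞ (lg g x) ((fun p : ℝ × ℝ => y + p.2 • ξ) (t, 0)) := by
    simp only [zero_smul, add_zero]
    exact hg.lg_at hx hy
  have h5 : ContDiffAt ℝ ∞ (fun p : ℝ × ℝ => lg g x (y + p.2 • ξ)) (t, 0) :=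
    ContDiffAt.comp (f := fun p : ℝ × ℝ => y + p.2 • ξ) (t, (0 : ℝ)) h4 h3
  have h6 : ContDiffAt ℝ ∞ (fun p : ℝ × ℝ => p.1 • lg g x (y + p.2 • ξ)) (t, 0) :=
    contDiffAt_fst.smul h5
  have h7 : ContDiffAt ℝ ∞ (ex g x) ((fun p : ℝ × ℝ => p.1 • lg g x (y + p.2 • ξ)) (t, 0)) := by
    simp only [zero_smul, add_zero]
    exact hg.contDiffAt_ex hx ⟨z, hz, hlg⟩
  exact ContDiffAt.comp (f := fun p : ℝ × ℝ => p.1 • lg g x (y + p.2 • ξ)) (t, (0 : ℝ)) h7 h6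

theorem vrt_energy (hg : IsSimple g) {x y : E n} (hx : x ∈ M n)
    (hy : y ∈ ball (0 : E n) 1) (ξ : E n) {t0 : ℝ} (ht0 : t0 ∈ Ioo (0 : ℝ) 1)
    (hs : ContDiffAt ℝ ∞ (vrt g x y ξ) (t0, 0)) :
    ∀ᶠ p in 𝓝 (t0, (0 : ℝ)), g (vrt g x y ξ p) (fderiv ℝ (vrt g x y ξ) p (1, 0))
      (fderiv ℝ (vrt g x y ξ) p (1, 0)) = g x (lg g x (y + p.2 • ξ)) (lg g x (y + p.2 • ξ)) := by
  have hD : ∀ᶠ p in 𝓝 (t0, (0 : ℝ)), HasFDerivAt (vrt g x y ξ) (fderiv ℝ (vrt g x y ξ) p) p := by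
    have h2 : ContDiffAt ℝ 1 (vrt g x y ξ) (t0, 0) := hs.of_le (by
      exact WithTop.coe_le_coe.2 le_top)
    have h3 := h2.eventually (by simp)
    filter_upwards [h3] with p hp
    exact (hp.differentiableAt (by simp)).hasFDerivAt
  have e1 : ∀ᶠ p : ℝ × ℝ in 𝓝 (t0, (0 : ℝ)), p.1 ∈ Ioo (0 : ℝ) 1 :=
    continuousAt_fst.eventually (Ioo_mem_nhds ht0.1 ht0.2)
  have e2 : ∀ᶠ p : ℝ × ℝ in 𝓝 (t0, (0 : ℝ)), y + p.2 • ξ ∈ ball (0 : E n) 1 := by
    have h2 : ContinuousAt (fun p : ℝ × ℝ => y + p.2 • ξ) (t0, 0) := by fun_prop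
    refine h2.eventually (isOpen_ball.mem_nhds ?_)
    simpa using hy
  filter_upwards [hD, e1, e2] with p hp hp1 hp2
  obtain ⟨γ', u', hγ', h0', h1', hu0', -⟩ := hg.exists_geod hx (ball_subset_closedBall hp2)
  have h3 : HasDerivAt γ' (u' p.1) p.1 :=
    (hγ'.vel p.1 ⟨hp1.1.le, hp1.2.le⟩).hasDerivAt (Icc_mem_nhds hp1.1 hp1.2)
  have h4 : HasDerivAt (fun t : ℝ => vrt g x y ξ (t, p.2)) (fderiv ℝ (vrt g x y ξ) p (1, 0))
      p.1 := HasFDerivAt.comp_hasDerivAt (f := fun t : ℝ => (t, p.2)) p.1 hp (curve_t p.1 p.2)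
  have h5 : (fun t : ℝ => vrt g x y ξ (t, p.2)) =ᶠ[𝓝 p.1] γ' := by
    filter_upwards [Icc_mem_nhds hp1.1 hp1.2] with t ht
    rw [hγ'.eq_ex hg ht, h0', hu0']
    rfl
  have h6 : fderiv ℝ (vrt g x y ξ) p (1, 0) = u' p.1 :=
    h4.unique (h3.congr_of_eventuallyEq h5)
  have h7 : vrt g x y ξ p = γ' p.1 := h5.self_of_nhds
  rw [h6, h7, hγ'.speed hg.toIsMetric p.1 ⟨hp1.1.le, hp1.2.le⟩, h0', hu0']

theorem lg_curve (hg : IsSimple g) {x y : E n} (hx : x ∈ M n)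
    (hy : y ∈ ball (0 : E n) 1) (ξ : E n) :
    HasDerivAt (fun s : ℝ => lg g x (y + s • ξ)) (dlg g x y ξ) 0 := by
  have h4 : HasDerivAt (fun s : ℝ => y + s • ξ) ξ 0 := by
    simpa using ((hasDerivAt_id (0 : ℝ)).smul_const ξ).const_add y
  have h5 : HasFDerivAt (lg g x) (dlg g x y) (y + (0 : ℝ) • ξ) := by
    rw [zero_smul, add_zero]
    exact (hg.hasFDeriv hx (ball_subset_closedBall hy)).hasFDerivAt
      (mem_of_superset (isOpen_ball.mem_nhds hy) ball_subset_closedBall)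
  exact HasFDerivAt.comp_hasDerivAt (f := fun s : ℝ => y + s • ξ) (0 : ℝ) h5 h4

theorem vrt_energy_deriv (hg : IsSimple g) {x y : E n} (hx : x ∈ M n)
    (hy : y ∈ ball (0 : E n) 1) (ξ : E n) :
    HasDerivAt (fun s : ℝ => g x (lg g x (y + s • ξ)) (lg g x (y + s • ξ)))
      (2 * g x (lg g x y) (dlg g x y ξ)) 0 := by
  have h6 := lg_curve hg hx hy ξ
  have h7 := hasDerivAt_form hg.toIsMetric (hasDerivAt_const (0 : ℝ) x) h6 h6
  refine h7.congr_deriv ?_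
  simp only [zero_smul, add_zero, map_zero, zero_add, zero_apply]
  rw [hg.symm x (dlg g x y ξ) (lg g x y)]
  ring

theorem vrt_s (hg : IsSimple g) {x y : E n} (hx : x ∈ M n)
    (hy : y ∈ ball (0 : E n) 1) (ξ : E n) {t : ℝ} {z : E n} (hz : z ∈ ball (0 : E n) 1)
    (hlg : lg g x z = t • lg g x y) :
    fderiv ℝ (vrt g x y ξ) (t, 0) (0, 1) = t • ilg g x z (dlg g x y ξ) := by
  have hs := vrt_contDiffAt hg hx hy ξ hz hlg
  have h4 : HasDerivAt (fun s : ℝ => vrt g x y ξ (t, s))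
      (fderiv ℝ (vrt g x y ξ) (t, 0) (0, 1)) 0 :=
    HasFDerivAt.comp_hasDerivAt (f := fun s : ℝ => (t, s)) (0 : ℝ)
      (hs.differentiableAt (by simp)).hasFDerivAt (curve_s t 0)
  refine h4.unique ?_
  have h5 : HasDerivAt (fun s : ℝ => t • lg g x (y + s • ξ)) (t • dlg g x y ξ) 0 :=
    (lg_curve hg hx hy ξ).const_smul t
  have h6 : HasFDerivAt (ex g x) (ilg g x z) ((fun s : ℝ => t • lg g x (y + s • ξ)) 0) := by
    simp only [zero_smul, add_zero]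
    rw [← hlg]
    exact hg.hasFDerivAt_ex hx hz
  have h7 := HasFDerivAt.comp_hasDerivAt (f := fun s : ℝ => t • lg g x (y + s • ξ)) (0 : ℝ) h6 h5
  rw [map_smul] at h7
  exact h7

theorem gauss_deriv (hg : IsSimple g) {x y : E n} (hx : x ∈ M n)
    (hy : y ∈ ball (0 : E n) 1) (ξ : E n) {γ u : ℝ → E n} (hγ : IsGeod g γ u) (h0 : γ 0 = x)
    (hu0 : u 0 = lg g x y) (hu : u 0 ≠ 0) {t0 : ℝ} (ht0 : t0 ∈ Ioo (0 : ℝ) 1) :
    HasDerivAt (fun t => g (γ t) (u t) (t • ilg g x (γ t) (dlg g x y ξ)))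
      (g x (lg g x y) (dlg g x y ξ)) t0 := by
  have hin : ∀ t ∈ Ioo (0 : ℝ) 1, γ t ∈ ball (0 : E n) 1 := fun t ht =>
    mem_ball_zero_iff.2 (hγ.inner_mem hg hu ht)
  have hlg : ∀ t ∈ Ioo (0 : ℝ) 1, lg g x (γ t) = t • lg g x y := by
    intro t ht
    have h2 := hγ.lg_eq hg ⟨ht.1.le, ht.2.le⟩
    rwa [h0, hu0] at h2
  have hs : ∀ t ∈ Ioo (0 : ℝ) 1, ContDiffAt ℝ ∞ (vrt g x y ξ) (t, 0) := fun t ht =>
    vrt_contDiffAt hg hx hy ξ (hin t ht) (hlg t ht)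
  have e1 : ∀ t ∈ Ioo (0 : ℝ) 1, vrt g x y ξ (t, 0) = γ t := by
    intro t ht
    rw [hγ.eq_ex hg ⟨ht.1.le, ht.2.le⟩, h0, hu0]
    simp [vrt]
  have e2 : ∀ t ∈ Ioo (0 : ℝ) 1, fderiv ℝ (vrt g x y ξ) (t, 0) (1, 0) = u t := by
    intro t ht
    have h3 : HasDerivAt γ (u t) t :=
      (hγ.vel t ⟨ht.1.le, ht.2.le⟩).hasDerivAt (Icc_mem_nhds ht.1 ht.2)
    have h4 : HasDerivAt (fun t : ℝ => vrt g x y ξ (t, 0))
        (fderiv ℝ (vrt g x y ξ) (t, 0) (1, 0)) t :=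
      HasFDerivAt.comp_hasDerivAt (f := fun t : ℝ => (t, (0 : ℝ))) t
        ((hs t ht).differentiableAt (by simp)).hasFDerivAt (curve_t t 0)
    refine h4.unique (h3.congr_of_eventuallyEq ?_)
    filter_upwards [Ioo_mem_nhds ht.1 ht.2] with s hs
    exact e1 s hs
  obtain ⟨c, hc, hacc⟩ := hγ.acc t0 ⟨ht0.1.le, ht0.2.le⟩
  have hnb := Ioo_mem_nhds ht0.1 ht0.2
  have hIcc := Icc_mem_nhds ht0.1 ht0.2
  exact first_variation hg.toIsMetric (hs t0 ht0) (vrt_energy_deriv hg hx hy ξ)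
    (vrt_energy hg hx hy ξ ht0 (hs t0 ht0))
    (by filter_upwards [hnb] with t ht using e1 t ht)
    (by filter_upwards [hnb] with t ht using e2 t ht)
    (by filter_upwards [hnb] with t ht using vrt_s hg hx hy ξ (hin t ht) (hlg t ht))
    ((hγ.vel t0 ⟨ht0.1.le, ht0.2.le⟩).hasDerivAt hIcc) (hc.hasDerivAt hIcc) hacc

/-- The Gauss lemma at inner points. -/
theorem IsSimple.gauss_inner (hg : IsSimple g) {x y : E n} (hx : x ∈ M n)
    (hy : y ∈ ball (0 : E n) 1) (ξ : E n) :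
    g y (tv g x y) ξ = g x (lg g x y) (dlg g x y ξ) := by
  have hyM : y ∈ M n := ball_subset_closedBall hy
  rcases eq_or_ne x y with rfl | hxy
  · have h1 := hg.lg_self hx
    unfold tv
    rw [h1]
    simp
  obtain ⟨γ, u, hγ, h0, h1, hu0, hu1⟩ := hg.exists_geod hx hyM
  have hm := hg.toIsMetric
  have hu0' : u 0 ≠ 0 := by
    rw [hu0]
    exact hg.lg_ne_zero hx hyM hxy
  have hcont : ContinuousOn (fun t => g (γ t) (u t) (t • ilg g x (γ t) (dlg g x y ξ)))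
      (Icc 0 1) := by
    have c1 : ContinuousOn (fun t => g (γ t)) (Icc 0 1) :=
      hm.smooth.continuous.comp_continuousOn hγ.cont
    have c2 : ContinuousOn (fun t => ilg g x (γ t)) (Icc 0 1) :=
      (hg.continuousOn_ilg hx).comp hγ.cont (fun t ht => hγ.mem t ht)
    exact (c1.clm_apply hγ.contU).clm_apply
      (continuousOn_id.smul (c2.clm_apply continuousOn_const))
  obtain ⟨c, -, hc⟩ := exists_hasDerivAt_eq_slope
    (fun t => g (γ t) (u t) (t • ilg g x (γ t) (dlg g x y ξ)))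
    (fun _ => g x (lg g x y) (dlg g x y ξ)) zero_lt_one hcont
    (fun t ht => gauss_deriv hg hx hy ξ hγ h0 hu0 hu0' ht)
  simp only [one_smul, zero_smul, map_zero, sub_zero, div_one] at hc
  rw [hc, h1, hu1, hg.ilg_dlg hx hyM]

/-- The Gauss lemma. -/
theorem IsSimple.gauss (hg : IsSimple g) {x y : E n} (hx : x ∈ M n) (hy : y ∈ M n) (ξ : E n) :
    g y (tv g x y) ξ = g x (lg g x y) (dlg g x y ξ) := by
  have hm := hg.toIsMetric
  have c1 : ContinuousOn (fun y => g y (tv g x y) ξ) (M n) := by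
    have c2 : ContinuousOn (fun y => tv g x y) (M n) :=
      (hg.continuousOn_ilg hx).clm_apply (hg.contDiffOn_lg hx).continuousOn
    exact (hm.smooth.continuous.continuousOn.clm_apply c2).clm_apply continuousOn_const
  have c2 : ContinuousOn (fun y => g x (lg g x y) (dlg g x y ξ)) (M n) := by
    have c3 : ContinuousOn (fun y => g x (lg g x y)) (M n) :=
      (g x).continuous.comp_continuousOn (hg.contDiffOn_lg hx).continuousOn
    exact c3.clm_apply ((hg.continuousOn_dlg hx).clm_apply continuousOn_const)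
  have hcl : M n ⊆ closure (ball (0 : E n) 1) := by
    rw [closure_ball (0 : E n) one_ne_zero]
  have h1 : EqOn (fun y => g y (tv g x y) ξ) (fun y => g x (lg g x y) (dlg g x y ξ))
      (ball (0 : E n) 1) := fun z hz => hg.gauss_inner hx hz ξ
  exact h1.of_subset_closure c1 c2 ball_subset_closedBall hcl hy

end Pool.Agent.Q176.BR
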