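import Pool.Agent.Q176.BR.Defs

/-!
# Geodesics
-/

set_option autoImplicit false

namespace Pool.Agent.Q176.BR

open Set Metric Filter Topology
open scoped ContDiff InnerProductSpace

variable {n : ℕ}

theorem IsMetric.hasFDerivAt {g : Fld n} (hg : IsMetric g) (x : E n) :
    HasFDerivAt g (fderiv ℝ g x) x :=
  ((hg.smooth.differentiable (by simp)) x).hasFDerivAt

/-- Derivative of `g(a, b)` along a curve. -/
theorem hasDerivWithinAt_form {g : Fld n} (hg : IsMetric g) {γ a b : ℝ → E n} {v a' b' : E n}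
    {s : Set ℝ} {t : ℝ} (hγ : HasDerivWithinAt γ v s t) (ha : HasDerivWithinAt a a' s t)
    (hb : HasDerivWithinAt b b' s t) :
    HasDerivWithinAt (fun r => g (γ r) (a r) (b r))
      (fderiv ℝ g (γ t) v (a t) (b t) + g (γ t) a' (b t) + g (γ t) (a t) b') s t := by
  have h1 : HasDerivWithinAt (fun r => g (γ r)) (fderiv ℝ g (γ t) v) s t :=
    HasFDerivAt.comp_hasDerivWithinAt (l := g) t (hg.hasFDerivAt (γ t)) hγ
  have h2 := (h1.clm_apply ha).clm_apply hb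
  refine h2.congr_deriv ?_
  simp [add_assoc]

theorem IsMetric.fderiv_symm {g : Fld n} (hg : IsMetric g) (x z v w : E n) :
    fderiv ℝ g x z v w = fderiv ℝ g x z w v := by
  have h1 : HasFDerivAt (fun y => g y v w) (((fderiv ℝ g x).flip v).flip w) x := by
    have h := ((hg.hasFDerivAt x).clm_apply (hasFDerivAt_const v x)).clm_apply
      (hasFDerivAt_const w x)
    refine h.congr_fderiv ?_
    ext z
    simp
  have h2 : HasFDerivAt (fun y => g y w v) (((fderiv ℝ g x).flip w).flip v) x := by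
    have h := ((hg.hasFDerivAt x).clm_apply (hasFDerivAt_const w x)).clm_apply
      (hasFDerivAt_const v x)
    refine h.congr_fderiv ?_
    ext z
    simp
  have e : (fun y => g y v w) = fun y => g y w v := by
    funext y
    exact hg.symm y v w
  rw [e] at h1
  have := h1.unique h2
  have h3 := congrArg (fun L : E n →L[ℝ] ℝ => L z) this
  simpa using h3

/-- Affine reparametrisation. -/
theorem IsGeod.affine {g : Fld n} {γ u : ℝ → E n} (h : IsGeod g γ u) (a b : ℝ)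
    (hab : ∀ t ∈ Icc (0 : ℝ) 1, a + b * t ∈ Icc (0 : ℝ) 1) :
    IsGeod g (fun t => γ (a + b * t)) (fun t => b • u (a + b * t)) := by
  have hd : ∀ t, HasDerivWithinAt (fun t : ℝ => a + b * t) b (Icc 0 1) t := by
    intro t
    have h1 := ((hasDerivAt_id t).const_mul b).const_add a
    simpa using h1.hasDerivWithinAt
  refine ⟨fun t ht => h.mem _ (hab t ht), fun t ht => ?_, fun t ht => ?_⟩
  · exact (h.vel _ (hab t ht)).scomp t (hd t) (fun s hs => hab s hs)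
  · obtain ⟨c, h1, h2⟩ := h.acc _ (hab t ht)
    refine ⟨b • b • c, (h1.scomp t (hd t) (fun s hs => hab s hs)).const_smul b, ?_⟩
    intro w
    have h3 := h2 w
    simp only [map_smul, smul_apply, smul_eq_mul]
    rw [h3]
    ring

theorem IsGeod.restrict {g : Fld n} {γ u : ℝ → E n} (h : IsGeod g γ u) {s : ℝ}
    (hs : s ∈ Icc (0 : ℝ) 1) : IsGeod g (fun t => γ (s * t)) (fun t => s • u (s * t)) := by
  have h1 := h.affine 0 s (fun t ht => by
    rw [zero_add]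
    exact ⟨mul_nonneg hs.1 ht.1, mul_le_one₀ hs.2 ht.1 ht.2⟩)
  simpa using h1

theorem IsGeod.reverse {g : Fld n} {γ u : ℝ → E n} (h : IsGeod g γ u) :
    IsGeod g (fun t => γ (1 - t)) (fun t => -u (1 - t)) := by
  have h1 := h.affine 1 (-1) (fun t ht => ⟨by linarith [ht.2], by linarith [ht.1]⟩)
  simpa [sub_eq_add_neg] using h1

/-- The final part of a geodesic. -/
theorem IsGeod.tail {g : Fld n} {γ u : ℝ → E n} (h : IsGeod g γ u) {s : ℝ}
    (hs : s ∈ Icc (0 : ℝ) 1) :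
    IsGeod g (fun t => γ (s + (1 - s) * t)) (fun t => (1 - s) • u (s + (1 - s) * t)) :=
  h.affine s (1 - s) (fun t ht => ⟨by nlinarith [hs.1, hs.2, ht.1, ht.2],
    by nlinarith [hs.1, hs.2, ht.1, ht.2]⟩)

theorem IsGeod.contU {g : Fld n} {γ u : ℝ → E n} (h : IsGeod g γ u) :
    ContinuousOn u (Icc 0 1) := fun t ht => by
  obtain ⟨c, hc, -⟩ := h.acc t ht
  exact hc.continuousWithinAt

theorem IsGeod.cont {g : Fld n} {γ u : ℝ → E n} (h : IsGeod g γ u) :
    ContinuousOn γ (Icc 0 1) := fun t ht => (h.vel t ht).continuousWithinAt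

theorem const_of_deriv {f : ℝ → ℝ}
    (h : ∀ t ∈ Icc (0 : ℝ) 1, HasDerivWithinAt f 0 (Icc 0 1) t) :
    ∀ t ∈ Icc (0 : ℝ) 1, f t = f 0 := by
  refine constant_of_has_deriv_right_zero (fun t ht => (h t ht).continuousWithinAt) ?_
  intro t ht
  exact (h t ⟨ht.1, ht.2.le⟩).mono_of_mem_nhdsWithin (Icc_mem_nhdsGE_of_mem ht)

/-- Geodesics have constant speed. -/
theorem IsGeod.speed {g : Fld n} (hg : IsMetric g) {γ u : ℝ → E n} (h : IsGeod g γ u) :
    ∀ t ∈ Icc (0 : ℝ) 1, g (γ t) (u t) (u t) = g (γ 0) (u 0) (u 0) := by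
  refine const_of_deriv (f := fun t => g (γ t) (u t) (u t)) (fun t ht => ?_)
  obtain ⟨c, h1, h2⟩ := h.acc t ht
  refine (hasDerivWithinAt_form hg (h.vel t ht) h1 h1).congr_deriv ?_
  rw [hg.symm (γ t) (u t) c, h2 (u t)]
  ring

theorem IsMetric.nonneg {g : Fld n} (hg : IsMetric g) (x v : E n) : 0 ≤ g x v v := by
  rcases eq_or_ne v 0 with rfl | h
  · simp
  · exact (hg.pos x v h).le

theorem IsMetric.eq_zero {g : Fld n} (hg : IsMetric g) {x v : E n} (h : g x v v = 0) :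
    v = 0 := by
  by_contra h1
  exact (hg.pos x v h1).ne' h

theorem IsGeod.ne_zero {g : Fld n} (hg : IsMetric g) {γ u : ℝ → E n} (h : IsGeod g γ u)
    (h0 : u 0 ≠ 0) {t : ℝ} (ht : t ∈ Icc (0 : ℝ) 1) : u t ≠ 0 := by
  intro h1
  have h2 := h.speed hg t ht
  rw [h1] at h2
  simp only [map_zero] at h2
  exact (hg.pos _ _ h0).ne h2

/-- A geodesic which ends at the boundary ends there transversally. -/
theorem IsGeod.transversal {g : Fld n} (hg : IsSimple g) {γ u : ℝ → E n} (h : IsGeod g γ u)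
    (h0 : u 0 ≠ 0) (h1 : ‖γ 1‖ = 1) : 0 < ⟪γ 1, u 1⟫_ℝ := by
  have m1 : (1 : ℝ) ∈ Icc (0 : ℝ) 1 := ⟨zero_le_one, le_rfl⟩
  have hder : ∀ t ∈ Icc (0 : ℝ) 1,
      HasDerivWithinAt (fun s => ‖γ s‖ ^ 2) (2 * ⟪γ t, u t⟫_ℝ) (Icc 0 1) t := fun t ht =>
    (h.vel t ht).norm_sq
  by_contra hcon
  rw [not_lt] at hcon
  obtain ⟨c, hc, hacc⟩ := h.acc 1 m1
  have hpsi : HasDerivWithinAt (fun s => ⟪γ s, u s⟫_ℝ) (⟪γ 1, c⟫_ℝ + ⟪u 1, u 1⟫_ℝ) (Icc 0 1) 1 :=
    (h.vel 1 m1).inner ℝ hc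
  -- the function `⟨γ, u⟩` is negative before the time one
  have hneg : ∀ᶠ s in 𝓝[<] (1 : ℝ), ⟪γ s, u s⟫_ℝ < 0 := by
    rcases hcon.lt_or_eq with hlt | heq
    · have hc1 : ContinuousWithinAt (fun s => ⟪γ s, u s⟫_ℝ) (Icc 0 1) 1 :=
        hpsi.continuousWithinAt
      have h2 := hc1.eventually (Iio_mem_nhds hlt)
      have h3 : 𝓝[<] (1 : ℝ) ≤ 𝓝[Icc 0 1] 1 := by
        rw [← nhdsWithin_Ico_eq_nhdsLT (zero_lt_one (α := ℝ))]
        exact nhdsWithin_mono _ Ico_subset_Icc_self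
      exact h3 h2
    · have hd : 0 < ⟪γ 1, c⟫_ℝ + ⟪u 1, u 1⟫_ℝ := by
        have h2 := hg.convex (γ 1) (u 1) c h1 (h.ne_zero hg.toIsMetric h0 m1) heq hacc
        rw [real_inner_self_eq_norm_sq]
        linarith
      have h3 : HasDerivWithinAt (fun s => ⟪γ s, u s⟫_ℝ) (⟪γ 1, c⟫_ℝ + ⟪u 1, u 1⟫_ℝ) (Iio 1) 1 := by
        refine hpsi.mono_of_mem_nhdsWithin ?_
        rw [← nhdsWithin_Ico_eq_nhdsLT (zero_lt_one (α := ℝ))]
        exact mem_of_superset self_mem_nhdsWithin Ico_subset_Icc_self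
      rw [hasDerivWithinAt_iff_tendsto_slope' (by simp)] at h3
      have h4 := h3.eventually (Ioi_mem_nhds hd)
      filter_upwards [h4, self_mem_nhdsWithin] with s hs hs1
      rw [mem_Iio] at hs1
      rw [slope_def_field, heq, sub_zero] at hs
      by_contra h5
      rw [not_lt] at h5
      have h6 := div_nonpos_of_nonneg_of_nonpos h5 (sub_neg.2 hs1).le
      linarith
  obtain ⟨a, ha, ha1⟩ := (mem_nhdsLT_iff_exists_Ioo_subset' (zero_lt_one (α := ℝ))).1 hneg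
  have hanti : StrictAntiOn (fun s => ‖γ s‖ ^ 2) (Icc (max a 0) 1) := by
    refine strictAntiOn_of_deriv_neg (convex_Icc _ _) ?_ ?_
    · intro s hs
      exact ((hder s ⟨(le_max_right _ _).trans hs.1, hs.2⟩).continuousWithinAt).mono
        (Icc_subset_Icc_left (le_max_right _ _))
    · intro s hs
      rw [interior_Icc] at hs
      have hs0 : 0 < s := (le_max_right _ _).trans_lt hs.1
      have h5 := (hder s ⟨hs0.le, hs.2.le⟩).hasDerivAt (Icc_mem_nhds hs0 hs.2)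
      rw [h5.deriv]
      have h6 : ⟪γ s, u s⟫_ℝ < 0 := ha1 ⟨(le_max_left _ _).trans_lt hs.1, hs.2⟩
      linarith
  have hm : max a 0 < 1 := max_lt ha zero_lt_one
  have h7 := hanti ⟨le_rfl, hm.le⟩ ⟨hm.le, le_rfl⟩ hm
  simp only [h1, one_pow] at h7
  have h8 := h.mem (max a 0) ⟨le_max_right _ _, hm.le⟩
  rw [mem_closedBall_zero_iff] at h8
  have h9 := pow_le_one₀ (n := 2) (norm_nonneg (γ (max a 0))) h8
  linarith

/-- The inner points of a geodesic are inner points of `M`. -/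
theorem IsGeod.inner_mem {g : Fld n} (hg : IsSimple g) {γ u : ℝ → E n} (h : IsGeod g γ u)
    (h0 : u 0 ≠ 0) {t : ℝ} (ht : t ∈ Ioo (0 : ℝ) 1) : ‖γ t‖ < 1 := by
  have hle : ∀ s ∈ Icc (0 : ℝ) 1, ‖γ s‖ ≤ 1 := fun s hs => mem_closedBall_zero_iff.1 (h.mem s hs)
  by_contra hcon
  have heq : ‖γ t‖ = 1 := le_antisymm (hle t ⟨ht.1.le, ht.2.le⟩) (not_lt.1 hcon)
  have hr := h.restrict (s := t) ⟨ht.1.le, ht.2.le⟩
  have h1 := hr.transversal hg (by simpa using ⟨ht.1.ne', h0⟩) (by simpa using heq)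
  simp only [mul_one, inner_smul_right] at h1
  have h2 : 0 < ⟪γ t, u t⟫_ℝ := by
    by_contra h3
    have := mul_nonpos_of_nonneg_of_nonpos ht.1.le (not_lt.1 h3)
    linarith
  have h3 : HasDerivAt (fun s => ‖γ s‖ ^ 2) (2 * ⟪γ t, u t⟫_ℝ) t :=
    (h.vel t ⟨ht.1.le, ht.2.le⟩).norm_sq.hasDerivAt (Icc_mem_nhds ht.1 ht.2)
  have h4 : IsLocalMax (fun s => ‖γ s‖ ^ 2) t := by
    filter_upwards [Icc_mem_nhds ht.1 ht.2] with s hs
    rw [heq, one_pow]
    exact pow_le_one₀ (norm_nonneg _) (hle s hs)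
  have h5 := h4.hasDerivAt_eq_zero h3
  linarith

end Pool.Agent.Q176.BR
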