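import Pool.Agent.Q176.BR.Exp

/-!
# The derivative of the exponential map and terminal velocities
-/

set_option autoImplicit false

namespace Pool.Agent.Q176.BR

open Set Metric Filter Topology
open scoped ContDiff InnerProductSpace

variable {n : ℕ} {g : Fld n}

/-- The inverse of the derivative of the inverse exponential map. -/
noncomputable def ilg (g : Fld n) (x y : E n) : E n →L[ℝ] E n := (dlg g x y).inverse

theorem IsSimple.ilg_dlg (hg : IsSimple g) {x y : E n} (hx : x ∈ M n) (hy : y ∈ M n) (z : E n) :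
    ilg g x y (dlg g x y z) = z := by
  obtain ⟨e, he⟩ := hg.exists_equiv hx hy
  unfold ilg
  rw [← he, ContinuousLinearMap.inverse_equiv]
  simp

theorem IsSimple.dlg_ilg (hg : IsSimple g) {x y : E n} (hx : x ∈ M n) (hy : y ∈ M n) (z : E n) :
    dlg g x y (ilg g x y z) = z := by
  obtain ⟨e, he⟩ := hg.exists_equiv hx hy
  unfold ilg
  rw [← he, ContinuousLinearMap.inverse_equiv]
  simp

theorem IsSimple.continuousOn_ilg (hg : IsSimple g) {x : E n} (hx : x ∈ M n) :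
    ContinuousOn (ilg g x) (M n) := by
  intro y hy
  obtain ⟨e, he⟩ := hg.exists_equiv hx hy
  have h1 : ContinuousAt (ContinuousLinearMap.inverse : (E n →L[ℝ] E n) → (E n →L[ℝ] E n))
      (dlg g x y) := by
    rw [← he]
    exact (contDiffAt_map_inverse (n := 0) e).continuousAt
  exact h1.comp_continuousWithinAt (hg.continuousOn_dlg hx y hy)

theorem IsGeod.dlg_vel (hg : IsSimple g) {γ u : ℝ → E n} (h : IsGeod g γ u) {t : ℝ}
    (ht : t ∈ Icc (0 : ℝ) 1) : dlg g (γ 0) (γ t) (u t) = u 0 := by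
  have h0 := h.mem 0 ⟨le_rfl, zero_le_one⟩
  have h1 := (hg.hasFDeriv h0 (h.mem t ht)).comp_hasDerivWithinAt t (h.vel t ht)
    (fun s hs => h.mem s hs)
  have h2 : HasDerivWithinAt (lg g (γ 0) ∘ γ) ((1 : ℝ) • u 0) (Icc 0 1) t := by
    refine (((hasDerivAt_id t).smul_const (u 0)).hasDerivWithinAt).congr ?_ ?_
    · intro s hs
      exact h.lg_eq hg hs
    · exact h.lg_eq hg ht
  have h3 := (uniqueDiffOn_Icc (zero_lt_one (α := ℝ)) t ht).eq_deriv _ h1 h2
  rwa [one_smul] at h3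

/-- The velocity of a geodesic in terms of the initial velocity. -/
theorem IsGeod.vel_eq (hg : IsSimple g) {γ u : ℝ → E n} (h : IsGeod g γ u) {t : ℝ}
    (ht : t ∈ Icc (0 : ℝ) 1) : u t = ilg g (γ 0) (γ t) (u 0) := by
  rw [← h.dlg_vel hg ht, hg.ilg_dlg (h.mem 0 ⟨le_rfl, zero_le_one⟩) (h.mem t ht)]

/-- The terminal velocity of the geodesic from `x` to `y`. -/
noncomputable def tv (g : Fld n) (x y : E n) : E n := ilg g x y (lg g x y)

theorem IsGeod.tv_eq (hg : IsSimple g) {γ u : ℝ → E n} (h : IsGeod g γ u) :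
    tv g (γ 0) (γ 1) = u 1 := by
  have m1 : (1 : ℝ) ∈ Icc (0 : ℝ) 1 := ⟨zero_le_one, le_rfl⟩
  unfold tv
  rw [h.vel_eq hg m1, h.lg_eq hg m1, one_smul]

theorem IsSimple.exists_geod (hg : IsSimple g) {x y : E n} (hx : x ∈ M n) (hy : y ∈ M n) :
    ∃ γ u : ℝ → E n, IsGeod g γ u ∧ γ 0 = x ∧ γ 1 = y ∧ u 0 = lg g x y ∧ u 1 = tv g x y := by
  obtain ⟨γ, u, h1, rfl, h2, rfl⟩ := hg.isExp_lg hx hy
  exact ⟨γ, u, h1, rfl, rfl, h2, (h1.tv_eq hg).symm⟩

theorem IsSimple.norm_tv (hg : IsSimple g) {x y : E n} (hx : x ∈ M n) (hy : y ∈ M n) :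
    g y (tv g x y) (tv g x y) = g x (lg g x y) (lg g x y) := by
  obtain ⟨γ, u, h, rfl, rfl, h2, h3⟩ := hg.exists_geod hx hy
  rw [← h2, ← h3]
  exact h.speed hg.toIsMetric 1 ⟨zero_le_one, le_rfl⟩

theorem IsSimple.lg_symm (hg : IsSimple g) {x y : E n} (hx : x ∈ M n) (hy : y ∈ M n) :
    lg g y x = -tv g x y := by
  obtain ⟨γ, u, h, rfl, rfl, h2, h3⟩ := hg.exists_geod hx hy
  have h4 := h.reverse.isExp
  simp only [sub_zero, sub_self] at h4
  rw [← hg.eq_lg hy h4, h3]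

/-- The image of the open ball under the inverse exponential map is open. -/
theorem IsSimple.isOpen_lg (hg : IsSimple g) {x : E n} (hx : x ∈ M n) :
    IsOpen (lg g x '' ball 0 1) := by
  rw [isOpen_iff_mem_nhds]
  rintro _ ⟨y, hy, rfl⟩
  have hyM : y ∈ M n := ball_subset_closedBall hy
  have hnb : M n ∈ 𝓝 y := mem_of_superset (isOpen_ball.mem_nhds hy) ball_subset_closedBall
  have h1 : ContDiffAt ℝ ∞ (lg g x) y := (hg.contDiffOn_lg hx).contDiffAt hnb
  obtain ⟨e, he⟩ := hg.exists_equiv hx hyM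
  have h2 : HasStrictFDerivAt (lg g x) (e : E n →L[ℝ] E n) y := by
    refine h1.hasStrictFDerivAt' ?_ (by simp)
    rw [he]
    exact (hg.hasFDeriv hx hyM).hasFDerivAt hnb
  rw [← h2.map_nhds_eq_of_equiv]
  exact image_mem_map (isOpen_ball.mem_nhds hy)

theorem IsSimple.lg_image_sub (hg : IsSimple g) {x : E n} (hx : x ∈ M n) :
    lg g x '' ball 0 1 ⊆ dom g x := by
  rintro _ ⟨y, hy, rfl⟩
  exact hg.lg_mem hx (ball_subset_closedBall hy)

theorem IsSimple.contDiffAt_ex (hg : IsSimple g) {x v : E n} (hx : x ∈ M n)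
    (hv : v ∈ lg g x '' ball 0 1) : ContDiffAt ℝ ∞ (ex g x) v :=
  (hg.contDiffOn_ex hx).contDiffAt
    (mem_of_superset ((hg.isOpen_lg hx).mem_nhds hv) (hg.lg_image_sub hx))

theorem IsSimple.hasFDerivAt_ex (hg : IsSimple g) {x y : E n} (hx : x ∈ M n)
    (hy : y ∈ ball (0 : E n) 1) : HasFDerivAt (ex g x) (ilg g x y) (lg g x y) := by
  have hyM : y ∈ M n := ball_subset_closedBall hy
  obtain ⟨B, h1, h2⟩ := hg.exists_left_inv hx hyM
  have h3 : B = ilg g x y := by
    ext1 z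
    have h4 := congrArg (fun L : E n →L[ℝ] E n => L (ilg g x y z)) h2
    simp only [ContinuousLinearMap.comp_apply, ContinuousLinearMap.id_apply] at h4
    rwa [hg.dlg_ilg hx hyM] at h4
  rw [← h3]
  exact h1.hasFDerivAt (mem_of_superset ((hg.isOpen_lg hx).mem_nhds (mem_image_of_mem _ hy))
    (hg.lg_image_sub hx))

end Pool.Agent.Q176.BR
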