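import Pool.Agent.Q176.BR.Cons

/-!
# A simple metric is determined within its projective class by the germ of its boundary distance
-/

set_option autoImplicit false

namespace Pool.Agent.Q176.BR

open Set Metric Filter Topology
open scoped ContDiff InnerProductSpace BigOperators

variable {n : ℕ} {g g' : Fld n}

/-- Every geodesic of `g` with end point in `U` is a geodesic of `g'` after a change of the
parameter. -/
def SameGeodesics (g g' : Fld n) (U : Set (E n)) : Prop :=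
  ∀ γ u : ℝ → E n, IsGeod g γ u → γ 1 ∈ U →
    ∃ τ σ : ℝ → ℝ, IsRep τ σ ∧ IsGeod g' (fun t => γ (τ t)) (fun t => σ t • u (τ t))

theorem IsRep.maps {τ σ : ℝ → ℝ} (h : IsRep τ σ) : MapsTo τ (Icc 0 1) (Icc 0 1) := by
  have h1 : MonotoneOn τ (Icc 0 1) := by
    refine monotoneOn_of_deriv_nonneg (convex_Icc 0 1)
      (fun t ht => (h.der t ht).continuousWithinAt) ?_ ?_
    · intro t ht
      rw [interior_Icc] at ht
      exact ((h.der t ⟨ht.1.le, ht.2.le⟩).hasDerivAt
        (Icc_mem_nhds ht.1 ht.2)).differentiableAt.differentiableWithinAt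
    · intro t ht
      rw [interior_Icc] at ht
      rw [((h.der t ⟨ht.1.le, ht.2.le⟩).hasDerivAt (Icc_mem_nhds ht.1 ht.2)).deriv]
      exact (h.pos t ⟨ht.1.le, ht.2.le⟩).le
  intro t ht
  have h2 := h1 ⟨le_rfl, zero_le_one⟩ ht ht.1
  have h3 := h1 ht ⟨zero_le_one, le_rfl⟩ ht.2
  rw [h.zero] at h2
  rw [h.one] at h3
  exact ⟨h2, h3⟩

/-- Terminal velocities are proportional. -/
theorem SameGeodesics.tv (hg : IsSimple g) (hg' : IsSimple g') {U : Set (E n)}
    (hs : SameGeodesics g g' U) {x p : E n} (hx : x ∈ M n) (hp : p ∈ M n) (hpU : p ∈ U) :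
    ∃ l : ℝ, 0 < l ∧ tv g' x p = l • Pool.Agent.Q176.BR.tv g x p := by
  obtain ⟨γ, u, hγ, rfl, rfl, hu0, hu1⟩ := hg.exists_geod hx hp
  obtain ⟨τ, σ, hτ, hγ'⟩ := hs γ u hγ hpU
  refine ⟨σ 1, hτ.pos 1 ⟨zero_le_one, le_rfl⟩, ?_⟩
  have h1 := hγ'.tv_eq hg'
  simp only [hτ.zero, hτ.one] at h1
  rw [h1, hu1]

/-- The difference of the Christoffel symbols in the direction of a common geodesic. -/
theorem SameGeodesics.dch_lg (hg : IsSimple g) (hg' : IsSimple g') {U : Set (E n)}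
    (hs : SameGeodesics g g' U) {x p : E n} (hx : x ∈ M n) (hp : p ∈ M n) (hpU : p ∈ U) :
    ∃ m : ℝ, dch g g' x (lg g x p) (lg g x p) = m • lg g x p := by
  obtain ⟨γ, u, hγ, rfl, rfl, hu0, hu1⟩ := hg.exists_geod hx hp
  obtain ⟨τ, σ, hτ, hγ'⟩ := hs γ u hγ hpU
  have m0 : (0 : ℝ) ∈ Icc (0 : ℝ) 1 := ⟨le_rfl, zero_le_one⟩
  obtain ⟨c, hc, hacc⟩ := hγ.acc 0 m0
  obtain ⟨c', hc', hacc'⟩ := hγ'.acc 0 m0
  have hσ : HasDerivWithinAt σ (derivWithin σ (Icc 0 1) 0) (Icc 0 1) 0 :=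
    (hτ.diff 0 m0).hasDerivWithinAt
  generalize derivWithin σ (Icc 0 1) 0 = k at hσ
  have hc2 : HasDerivWithinAt u c (Icc 0 1) (τ 0) := by
    rw [hτ.zero]
    exact hc
  have h1 := hσ.smul (hc2.scomp 0 (hτ.der 0 m0) hτ.maps)
  have h2 : c' = σ 0 • σ 0 • c + k • u (τ 0) :=
    (uniqueDiffOn_Icc (zero_lt_one (α := ℝ)) 0 m0).eq_deriv _ hc' h1
  simp only [hτ.zero] at h2 hacc'
  rw [(hg.toIsMetric.isAcc_iff _ _ _).1 hacc] at h2
  rw [(hg'.toIsMetric.isAcc_iff _ _ _).1 hacc', hg'.toIsMetric.chr_smul] at h2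
  have hσ0 : σ 0 ≠ 0 := (hτ.pos 0 m0).ne'
  rw [← hu0]
  refine ⟨-(k / σ 0 ^ 2), ?_⟩
  unfold dch
  have h3 : chr g' (γ 0) (u 0) (u 0) = chr g (γ 0) (u 0) (u 0) - (k / σ 0 ^ 2) • u 0 := by
    have h4 : σ 0 ^ 2 • chr g' (γ 0) (u 0) (u 0) =
        σ 0 ^ 2 • (chr g (γ 0) (u 0) (u 0) - (k / σ 0 ^ 2) • u 0) := by
      rw [smul_sub, smul_smul, mul_div_cancel₀ _ (pow_ne_zero 2 hσ0)]
      have h5 := congrArg (fun z => -z) h2
      simp only [neg_neg, smul_neg, smul_smul, neg_add, ← pow_two] at h5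
      rw [h5]
      abel
    exact smul_right_injective _ (pow_ne_zero 2 hσ0) h4
  rw [h3, neg_smul]
  abel

theorem dch_smul (hg : IsMetric g) (hg' : IsMetric g') (x v : E n) (l : ℝ) :
    dch g g' x (l • v) (l • v) = l ^ 2 • dch g g' x v v := by
  unfold dch
  rw [hg.chr_smul, hg'.chr_smul, smul_sub]

theorem dch_cone (hg : IsSimple g) (hg' : IsSimple g') {U : Set (E n)}
    (hs : SameGeodesics g g' U) {S : Set (E n)} (hSU : ∀ q ∈ S, q ∈ bdM n → q ∈ U) {x : E n}
    (hx : x ∈ M n) : ∀ z ∈ cone g x S, ∃ m : ℝ, dch g g' x z z = m • z := by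
  rintro _ ⟨l, hl, q, hqS, hq, hqx, rfl⟩
  obtain ⟨m, hm⟩ := hs.dch_lg hg hg' hx (bd_sub hq) (hSU q hqS hq)
  refine ⟨l * m, ?_⟩
  rw [dch_smul hg.toIsMetric hg'.toIsMetric, hm, smul_smul, smul_smul]
  congr 1
  ring

/-- Open parts of the sphere have at least two points. -/
theorem exists_ne_bd (hn : 2 ≤ n) {V : Set (E n)} (hV : IsOpen V) (h : (V ∩ bdM n).Nonempty)
    (p : E n) : ∃ q ∈ V, q ∈ bdM n ∧ q ≠ p := by
  obtain ⟨q, hqV, hq⟩ := h
  rcases ne_or_eq q p with hqp | rfl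
  · exact ⟨q, hqV, hq, hqp⟩
  have hq1 : ‖q‖ = 1 := mem_sphere_zero_iff_norm.1 hq
  obtain ⟨w, hw0, hwq⟩ : ∃ w : E n, w ≠ 0 ∧ ⟪q, w⟫_ℝ = 0 := by
    have h1 : (ℝ ∙ q)ᗮ ≠ ⊥ := by
      intro h2
      have h3 := Submodule.finrank_add_finrank_orthogonal (ℝ ∙ q)
      rw [h2, finrank_bot, add_zero, finrank_span_singleton (bd_ne hq1), finrank_euclideanSpace,
        Fintype.card_fin] at h3
      omega
    obtain ⟨w, hw, hw'⟩ := Submodule.exists_mem_ne_zero_of_ne_bot h1
    exact ⟨w, hw', Submodule.mem_orthogonal_singleton_iff_inner_right.1 hw⟩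
  have c1 : ContinuousAt (fun s : ℝ => rad (q + s • w)) 0 := (rad_curve hq1 w).continuousAt
  have c2 : ∀ᶠ s : ℝ in 𝓝 0, rad (q + s • w) ∈ V := by
    have h7 : V ∈ 𝓝 ((fun s : ℝ => rad (q + s • w)) 0) := by
      simp only [zero_smul, add_zero, rad_eq hq1]
      exact hV.mem_nhds hqV
    exact c1 h7
  have c3 : ∀ᶠ s : ℝ in 𝓝[>] 0, rad (q + s • w) ∈ V := c2.filter_mono nhdsWithin_le_nhds
  obtain ⟨s, hsV, hs⟩ := (c3.and self_mem_nhdsWithin).exists
  have hne : q + s • w ≠ 0 := by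
    intro h
    have h1 := congrArg (fun z => ⟪q, z⟫_ℝ) h
    simp only [inner_add_right, inner_smul_right, hwq, real_inner_self_eq_norm_sq, hq1,
      inner_zero_right] at h1
    norm_num at h1
  refine ⟨rad (q + s • w), hsV, rad_mem hne, ?_⟩
  intro h
  have h1 := congrArg (fun z => ⟪w, z⟫_ℝ) h
  unfold rad at h1
  simp only [inner_add_right, inner_smul_right, real_inner_comm q w, hwq, mul_zero, zero_add,
    real_inner_self_eq_norm_sq, mul_eq_zero, inv_eq_zero, norm_eq_zero] at h1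
  simp [hne, hs.ne', hw0] at h1

/-- **Main theorem.** -/
theorem main (hn : 2 ≤ n) (hg : IsSimple g) (hg' : IsSimple g') {U V : Set (E n)}
    (hU : IsOpen U) (hV : IsOpen V) (hU' : (U ∩ bdM n).Nonempty) (hV' : (V ∩ bdM n).Nonempty)
    (hs : SameGeodesics g g' (U ∩ bdM n))
    (hd : ∀ x ∈ V ∩ bdM n, ∀ y ∈ U ∩ bdM n, rdist g x y = rdist g' x y) :
    ∀ x ∈ M n, g' x = g x := by
  have hm := hg.toIsMetric
  have hm' := hg'.toIsMetric
  -- equality at the boundary points in `U`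
  have hbd : ∀ p ∈ U, p ∈ bdM n → ∀ v w, g p v w = g' p v w := by
    intro p hpU hp
    obtain ⟨q, hqV, hq, hqp⟩ := exists_ne_bd hn hV hV' p
    refine eq_at_bd hn hg hg' hp hq hqp (hU.mem_nhds hpU) (hV.mem_nhds hqV)
      (fun r hr hr' y hy hy' => hd r ⟨hr, hr'⟩ y ⟨hy, hy'⟩) (fun r hr hr' hrp => ?_)
    exact hs.tv hg hg' (bd_sub hr') (bd_sub hp) ⟨hpU, hp⟩
  intro x hx
  obtain ⟨p, hpU, hp, hpx⟩ := exists_ne_bd hn hU hU' x
  have hpM := bd_sub hp
  have hcone := cone_mem_nhds hg hx hp hpx (hU.mem_nhds hpU)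
  -- the relation on the cone
  set R := Real.log (gram (g' x)).det - Real.log (gram (g x)).det with hR
  have key : ∀ v ∈ cone g x U, g' x v v = (Real.exp (2 * R / (n + 1)) • g x) v v := by
    rintro _ ⟨l, hl, q, hqU, hq, hqx, rfl⟩
    have hqM := bd_sub hq
    obtain ⟨γ, u, hγ, h0, h1, hu0, hu1⟩ := hg.exists_geod hx hqM
    have hu : u 0 ≠ 0 := by
      rw [hu0]
      exact hg.lg_ne_zero hx hqM hqx.symm
    have hcons := conserved hm hm' hγ hu (fun t ht => by
      have hti : t ∈ Icc (0 : ℝ) 1 := ⟨ht.1.le, ht.2.le⟩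
      have ht1 : 0 < 1 - t := sub_pos.2 ht.2
      have hγM := hγ.mem t hti
      have hγin := hγ.inner_mem hg hu ht
      have hqγ : q ≠ γ t := by
        rintro rfl
        rw [mem_sphere_zero_iff_norm] at hq
        linarith
      have htail := (hγ.tail hti).isExp
      simp only [mul_zero, add_zero, mul_one, add_sub_cancel, h1] at htail
      have hlg : (1 - t) • u t = lg g (γ t) q := hg.eq_lg hγM htail
      have hnb := cone_mem_nhds hg hγM hq hqγ (hU.mem_nhds hqU)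
      rw [← hlg] at hnb
      refine ⟨(fun z => (1 - t) • z) ⁻¹' cone g (γ t) U, ?_, ?_⟩
      · exact (continuous_const_smul (1 - t)).continuousAt hnb
      · intro z hz
        obtain ⟨m, hm1⟩ := dch_cone hg hg' hs (S := U) (fun q hq hq' => ⟨hq, hq'⟩) hγM _ hz
        rw [dch_smul hm hm'] at hm1
        refine ⟨m / (1 - t), ?_⟩
        have h2 : (1 - t) ^ 2 • dch g g' (γ t) z z = (1 - t) ^ 2 • ((m / (1 - t)) • z) := by
          rw [hm1, smul_smul, smul_smul]
          congr 1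
          field_simp
        exact smul_right_injective _ (pow_ne_zero 2 ht1.ne') h2)
    rw [h0, h1, ← hR] at hcons
    have e1 : g' q (u 1) (u 1) = g x (u 0) (u 0) := by
      rw [← hbd q hqU hq]
      have h2 := hγ.speed hm 1 ⟨zero_le_one, le_rfl⟩
      rwa [h0, h1] at h2
    have e2 : (gram (g' q)).det = (gram (g q)).det := by
      congr 1
      ext i j
      exact (hbd q hqU hq _ _).symm
    rw [e1, e2, sub_self, mul_zero, sub_zero, hu0] at hcons
    rw [hu0] at hu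
    have p1 := hm'.pos x _ hu
    have p2 := hm.pos x _ hu
    have hn1 : (n : ℝ) + 1 ≠ 0 := by positivity
    have e3 : Real.log (g' x (lg g x q) (lg g x q)) =
        2 * R / (n + 1) + Real.log (g x (lg g x q) (lg g x q)) := by
      field_simp
      linarith
    have e4 : g' x (lg g x q) (lg g x q) =
        Real.exp (2 * R / (n + 1)) * g x (lg g x q) (lg g x q) := by
      rw [← Real.exp_log p1, e3, Real.exp_add, Real.exp_log p2]
    simp only [map_smul, smul_apply, smul_eq_mul]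
    rw [e4]
  have h1 := forms_eq_of_open (a := g' x) (b := Real.exp (2 * R / (n + 1)) • g x)
    (hm'.symm x) (fun v w => by
      simp only [smul_apply]
      rw [hm.symm]) hcone key
  -- the determinants
  set r := Real.exp (2 * R / (n + 1)) with hr
  have hrpos : 0 < r := Real.exp_pos _
  have h2 : gram (g' x) = r • gram (g x) := by
    ext i j
    rw [gram_apply, h1]
    rfl
  have h3 : R = n * (2 * R / (n + 1)) := by
    have h4 : (gram (g' x)).det = r ^ n * (gram (g x)).det := by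
      rw [h2, Matrix.det_smul, Fintype.card_fin]
    have h5 : R = Real.log (r ^ n) := by
      rw [hR, h4, Real.log_mul (pow_pos hrpos n).ne' (hm.det_pos x).ne']
      ring
    rw [Real.log_pow, hr, Real.log_exp] at h5
    exact h5
  have h4 : R = 0 := by
    have hn1 : (n : ℝ) + 1 ≠ 0 := by positivity
    have hn2 : (2 : ℝ) ≤ n := by exact_mod_cast hn
    field_simp at h3
    have h5 : R * (n - 1) = 0 := by linarith
    rcases mul_eq_zero.1 h5 with h | h
    · exact h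
    · linarith
  have h5 : r = 1 := by
    rw [hr, h4, mul_zero, zero_div, Real.exp_zero]
  ext v w
  rw [h1, h5, one_smul]

end Pool.Agent.Q176.BR
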