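import Pool.Agent.Q176.BR.Bd2

/-!
# Christoffel symbols, determinants, and the projective class
-/

set_option autoImplicit false

namespace Pool.Agent.Q176.BR

open Set Metric Filter Topology
open scoped ContDiff InnerProductSpace BigOperators

variable {n : ℕ} {g g' : Fld n}

theorem IsMetric.exists_riesz (hg : IsMetric g) (x : E n) (l : E n →L[ℝ] ℝ) :
    ∃ c : E n, ∀ z, g x c z = l z := by
  set T : E n →ₗ[ℝ] E n := ((InnerProductSpace.toDual ℝ (E n)).symm.toLinearEquiv :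
    (E n →L[ℝ] ℝ) ≃ₗ[ℝ] E n).toLinearMap.comp (g x : E n →ₗ[ℝ] E n →L[ℝ] ℝ) with hT
  have hTa : ∀ v z, ⟪T v, z⟫_ℝ = g x v z := by
    intro v z
    have h1 : T v = (InnerProductSpace.toDual ℝ (E n)).symm (g x v) := rfl
    rw [h1, InnerProductSpace.toDual_symm_apply]
  have hinj : Function.Injective T := by
    rw [← LinearMap.ker_eq_bot, LinearMap.ker_eq_bot']
    intro v hv
    by_contra hne
    have h1 := hTa v v
    rw [hv, inner_zero_left] at h1
    exact (hg.pos x v hne).ne h1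
  obtain ⟨c, hc⟩ := LinearMap.injective_iff_surjective.1 hinj
    ((InnerProductSpace.toDual ℝ (E n)).symm l)
  exact ⟨c, fun z => by rw [← hTa, hc, InnerProductSpace.toDual_symm_apply]⟩

theorem IsMetric.ext (hg : IsMetric g) {x a b : E n} (h : ∀ z, g x a z = g x b z) : a = b := by
  have h1 : g x (a - b) (a - b) = 0 := by
    rw [map_sub (g x) a b, sub_apply, h, sub_self]
  exact sub_eq_zero.1 (hg.eq_zero h1)

/-- The Christoffel symbols of the first kind. -/
noncomputable def chl (g : Fld n) (x v w z : E n) : ℝ :=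
  1 / 2 * (fderiv ℝ g x v w z + fderiv ℝ g x w v z - fderiv ℝ g x z v w)

theorem IsMetric.exists_chr (hg : IsMetric g) (x v w : E n) :
    ∃ c : E n, ∀ z, g x c z = chl g x v w z := by
  obtain ⟨c, hc⟩ := hg.exists_riesz x ((1 / 2 : ℝ) • (fderiv ℝ g x v w + fderiv ℝ g x w v -
    ((fderiv ℝ g x).flip v).flip w))
  refine ⟨c, fun z => ?_⟩
  rw [hc]
  simp [chl]

/-- The Christoffel symbols of the second kind. -/
noncomputable def chr (g : Fld n) (x v w : E n) : E n :=
  open scoped Classical in if h : ∃ c : E n, ∀ z, g x c z = chl g x v w z then h.choose else 0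

theorem IsMetric.chr_spec (hg : IsMetric g) (x v w z : E n) :
    g x (chr g x v w) z = chl g x v w z := by
  have h := hg.exists_chr x v w
  unfold chr
  rw [dif_pos h]
  exact h.choose_spec z

theorem IsMetric.isAcc_iff (hg : IsMetric g) (x v c : E n) :
    IsAcc g x v c ↔ c = -chr g x v v := by
  constructor
  · intro h
    refine hg.ext (x := x) (fun z => ?_)
    rw [h z, map_neg, neg_apply, hg.chr_spec]
    unfold chl
    ring
  · rintro rfl z
    rw [map_neg, neg_apply, hg.chr_spec]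
    unfold chl
    ring

theorem IsMetric.chr_line (hg : IsMetric g) (x v w : E n) (s : ℝ) :
    chr g x (v + s • w) (v + s • w) =
      chr g x v v + (2 * s) • chr g x v w + s ^ 2 • chr g x w w := by
  refine hg.ext (x := x) (fun z => ?_)
  simp only [map_add, map_smul, add_apply, smul_apply, smul_eq_mul, hg.chr_spec]
  unfold chl
  simp only [map_add, map_smul, add_apply, smul_apply, smul_eq_mul]
  rw [hg.fderiv_symm x z w v]
  ring

theorem IsMetric.chr_smul (hg : IsMetric g) (x v : E n) (s : ℝ) :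
    chr g x (s • v) (s • v) = s ^ 2 • chr g x v v := by
  refine hg.ext (x := x) (fun z => ?_)
  simp only [map_smul, smul_apply, smul_eq_mul, hg.chr_spec]
  unfold chl
  simp only [map_smul, smul_apply, smul_eq_mul]
  ring

theorem IsMetric.chr_sum (hg : IsMetric g) (x v : E n) (w : Fin n → E n) (a : Fin n → ℝ) :
    chr g x v (∑ i, a i • w i) = ∑ i, a i • chr g x v (w i) := by
  refine hg.ext (x := x) (fun z => ?_)
  simp only [map_sum, map_smul, sum_apply, smul_apply, smul_eq_mul,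
    hg.chr_spec]
  unfold chl
  simp only [map_sum, map_smul, sum_apply, smul_apply, smul_eq_mul]
  rw [← Finset.sum_add_distrib, ← Finset.sum_sub_distrib, Finset.mul_sum]
  refine Finset.sum_congr rfl (fun i _ => ?_)
  ring

/-- The difference of the Christoffel symbols. -/
noncomputable def dch (g g' : Fld n) (x v w : E n) : E n := chr g' x v w - chr g x v w

/-- Polarisation of `B(v, v) = μ(v) v` on an open set. -/
theorem polar (hg : IsMetric g) (hg' : IsMetric g') {x v : E n} (hv : v ≠ 0) {S : Set (E n)}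
    (hS : S ∈ 𝓝 v) (h : ∀ z ∈ S, ∃ m : ℝ, dch g g' x z z = m • z) {m0 : ℝ}
    (hm0 : dch g g' x v v = m0 • v) (w : E n) :
    ∃ b : ℝ, (2 : ℝ) • dch g g' x v w = m0 • w + b • v := by
  set f : ℝ → E n := fun s => dch g g' x v v + (2 * s) • dch g g' x v w +
    s ^ 2 • dch g g' x w w with hf
  have hf1 : ∀ s : ℝ, dch g g' x (v + s • w) (v + s • w) = f s := by
    intro s
    simp only [hf]
    unfold dch
    rw [hg.chr_line, hg'.chr_line]
    module
  have hf2 : HasDerivAt f ((2 : ℝ) • dch g g' x v w) 0 := by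
    have h1 : HasDerivAt (fun s : ℝ => 2 * s) 2 0 := by
      simpa using (hasDerivAt_id (0 : ℝ)).const_mul 2
    have h2 : HasDerivAt (fun s : ℝ => s ^ 2) 0 0 := by
      simpa using hasDerivAt_pow 2 (0 : ℝ)
    have h3 : HasDerivAt f _ 0 := ((h1.smul_const (dch g g' x v w)).const_add
      (dch g g' x v v)).add (h2.smul_const (dch g g' x w w))
    refine h3.congr_deriv ?_
    rw [zero_smul, add_zero]
  have hz : HasDerivAt (fun s : ℝ => v + s • w) w 0 := by
    simpa using ((hasDerivAt_id (0 : ℝ)).smul_const w).const_add v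
  have hvv : ⟪v, v⟫_ℝ ≠ 0 := by
    rw [real_inner_self_eq_norm_sq]
    exact pow_ne_zero 2 (norm_ne_zero_iff.2 hv)
  -- the coefficient
  have hm : HasDerivAt (fun s : ℝ => ⟪f s, v + s • w⟫_ℝ / ⟪v + s • w, v + s • w⟫_ℝ)
      (((⟪f 0, w⟫_ℝ + ⟪(2 : ℝ) • dch g g' x v w, v + (0 : ℝ) • w⟫_ℝ) *
        ⟪v + (0 : ℝ) • w, v + (0 : ℝ) • w⟫_ℝ - ⟪f 0, v + (0 : ℝ) • w⟫_ℝ *
        (⟪v + (0 : ℝ) • w, w⟫_ℝ + ⟪w, v + (0 : ℝ) • w⟫_ℝ)) /
        ⟪v + (0 : ℝ) • w, v + (0 : ℝ) • w⟫_ℝ ^ 2) 0 :=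
    (hf2.inner ℝ hz).div (hz.inner ℝ hz) (by simpa using hvv)
  generalize (((⟪f 0, w⟫_ℝ + ⟪(2 : ℝ) • dch g g' x v w, v + (0 : ℝ) • w⟫_ℝ) *
        ⟪v + (0 : ℝ) • w, v + (0 : ℝ) • w⟫_ℝ - ⟪f 0, v + (0 : ℝ) • w⟫_ℝ *
        (⟪v + (0 : ℝ) • w, w⟫_ℝ + ⟪w, v + (0 : ℝ) • w⟫_ℝ)) /
        ⟪v + (0 : ℝ) • w, v + (0 : ℝ) • w⟫_ℝ ^ 2) = b at hm
  refine ⟨b, ?_⟩
  have h1 := hm.smul hz
  have h2 : (fun s : ℝ => (⟪f s, v + s • w⟫_ℝ / ⟪v + s • w, v + s • w⟫_ℝ) • (v + s • w))
      =ᶠ[𝓝 0] f := by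
    have c1 : ContinuousAt (fun s : ℝ => v + s • w) 0 := hz.continuousAt
    have c2 : ∀ᶠ s : ℝ in 𝓝 0, v + s • w ∈ S := by
      have h3 : S ∈ 𝓝 ((fun s : ℝ => v + s • w) 0) := by simpa using hS
      exact c1 h3
    have c3 : ∀ᶠ s : ℝ in 𝓝 0, v + s • w ≠ 0 := c1.eventually_ne (by simpa using hv)
    filter_upwards [c2, c3] with s hs hs'
    obtain ⟨m, hm⟩ := h _ hs
    rw [hf1] at hm
    have h3 : ⟪v + s • w, v + s • w⟫_ℝ ≠ 0 := by
      rw [real_inner_self_eq_norm_sq]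
      exact pow_ne_zero 2 (norm_ne_zero_iff.2 hs')
    rw [hm, inner_smul_left, mul_div_assoc, div_self h3]
    simp
  have h3 := (h1.congr_of_eventuallyEq h2.symm).unique hf2
  rw [← h3]
  simp only [zero_smul, add_zero]
  have h4 : f 0 = m0 • v := by
    simp only [hf, mul_zero, zero_smul, add_zero, hm0]
    simp
  rw [h4, inner_smul_left, mul_div_assoc, div_self hvv]
  simp

end Pool.Agent.Q176.BR
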